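import Pool.Agent.OC.Defs

/-!
# One missing 2-cell: `oneCellPlus rel R` 3-deforms to a point if `rel` does (module M9)
-/

set_option autoImplicit false

namespace Pool.Agent.OC

open Pool.Agent.FoxAsph Pool.Agent.WT Pool.Agent.RelGap Pool.Agent.ZO

/-- multiplication by a conjugate of the inverse of another element -/
theorem path_mulconj_inv {Y ι : Type} [DecidableEq ι] (r : ι → FreeGroup Y) (i j : ι) (h : j ≠ i)
    (g : FreeGroup Y) :
    Relation.ReflTransGen ACMove r (Function.update r i (r i * (g * (r j)⁻¹ * g⁻¹))) := by
  have h1 := move_inv r j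
  have h2 := path_mulconj (Function.update r j (r j)⁻¹) i j h g
  have h3 := move_inv (Function.update (Function.update r j (r j)⁻¹) i
    (Function.update r j (r j)⁻¹ i * (g * Function.update r j (r j)⁻¹ j * g⁻¹))) j
  have h4 : Function.update (Function.update (Function.update r j (r j)⁻¹) i
      (Function.update r j (r j)⁻¹ i * (g * Function.update r j (r j)⁻¹ j * g⁻¹))) j
      ((Function.update (Function.update r j (r j)⁻¹) i
      (Function.update r j (r j)⁻¹ i * (g * Function.update r j (r j)⁻¹ j * g⁻¹))) j)⁻¹ =
      Function.update r i (r i * (g * (r j)⁻¹ * g⁻¹)) := by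
    funext k
    by_cases hkj : k = j
    · subst hkj
      rw [Function.update_self, Function.update_of_ne h, Function.update_self,
        Function.update_of_ne h, inv_inv]
    · rw [Function.update_of_ne hkj]
      by_cases hki : k = i
      · subst hki
        rw [Function.update_self, Function.update_self, Function.update_of_ne (Ne.symm h),
          Function.update_self]
      · rw [Function.update_of_ne hki, Function.update_of_ne hkj, Function.update_of_ne hki]
  rw [h4] at h3
  exact ((Relation.ReflTransGen.single h1).trans h2).tail h3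

/-- with the relator `t`, the relator `(t w t⁻¹)⁻¹ w (t w t⁻¹) w⁻²` can be replaced by `w` -/
theorem path_bau {Y ι : Type} [DecidableEq ι] (r : ι → FreeGroup Y) (i j : ι) (h : j ≠ i)
    (W : FreeGroup Y) (hr : r i = r j * W⁻¹ * (r j)⁻¹ * W * r j * W * (r j)⁻¹ * W⁻¹ * W⁻¹) :
    Relation.ReflTransGen ACMove r (Function.update r i W) := by
  set r1 := Function.update r i (r i * ((W * W) * r j * (W * W)⁻¹)) with hr1
  have h1 : Relation.ReflTransGen ACMove r r1 := path_mulconj r i j h (W * W)
  set r2 := Function.update r1 i (r1 i * (W * (r1 j)⁻¹ * W⁻¹)) with hr2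
  have h2 : Relation.ReflTransGen ACMove r1 r2 := path_mulconj_inv r1 i j h W
  set r3 := Function.update r2 i ((r j)⁻¹ * r2 i * (r j)⁻¹⁻¹) with hr3
  have h3 : ACMove r2 r3 := move_conj r2 i (r j)⁻¹
  set r4 := Function.update r3 i (r3 i)⁻¹ with hr4
  have h4 : ACMove r3 r4 := move_inv r3 i
  have e1j : r1 j = r j := by rw [hr1, Function.update_of_ne h]
  have e1i : r1 i = r j * W⁻¹ * (r j)⁻¹ * W * r j * W⁻¹ := by
    rw [hr1, Function.update_self, hr]
    group
  have e2i : r2 i = r j * W⁻¹ * (r j)⁻¹ := by
    rw [hr2, Function.update_self, e1i, e1j]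
    group
  have e3i : r3 i = W⁻¹ := by
    rw [hr3, Function.update_self, e2i]
    group
  have e4 : r4 = Function.update r i W := by
    rw [hr4, e3i, inv_inv, hr3, Function.update_idem, hr2, Function.update_idem, hr1,
      Function.update_idem]
  rw [← e4]
  exact ((h1.trans h2).tail h3).tail h4

/-- the tuple with one new generator which is also a relator -/
def ext {X ι : Type} {m : ℕ} (r : ι ⊕ Fin m → FreeGroup (X ⊕ Fin m)) :
    Option ι ⊕ Fin m → FreeGroup (Option X ⊕ Fin m)
  | Sum.inl none => FreeGroup.of (Sum.inl none)
  | Sum.inl (some i) => FreeGroup.map (Sum.map some id) (r (Sum.inl i))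
  | Sum.inr k => FreeGroup.map (Sum.map some id) (r (Sum.inr k))

/-- the new index of an old relator -/
def up {ι : Type} {m : ℕ} : ι ⊕ Fin m → Option ι ⊕ Fin m := Sum.map some id

theorem up_injective {ι : Type} {m : ℕ} : Function.Injective (up : ι ⊕ Fin m → Option ι ⊕ Fin m) :=
  Sum.map_injective.2 ⟨Option.some_injective _, Function.injective_id⟩

theorem ext_up {X ι : Type} {m : ℕ} (r : ι ⊕ Fin m → FreeGroup (X ⊕ Fin m)) (i : ι ⊕ Fin m) :
    ext r (up i) = FreeGroup.map (Sum.map some id) (r i) := by
  rcases i with i | k <;> rfl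

theorem cases_up {ι : Type} {m : ℕ} (k : Option ι ⊕ Fin m) : k = Sum.inl none ∨ ∃ i, k = up i := by
  rcases k with (_ | i) | k
  · exact Or.inl rfl
  · exact Or.inr ⟨Sum.inl i, rfl⟩
  · exact Or.inr ⟨Sum.inr k, rfl⟩

theorem ACMove.ext {X ι : Type} {m : ℕ} {r r' : ι ⊕ Fin m → FreeGroup (X ⊕ Fin m)}
    (h : ACMove r r') : ACMove (ext r) (ext r') := by
  obtain ⟨i, hk, h1⟩ := h
  refine ⟨up i, fun k hki => ?_, ?_⟩
  · rcases cases_up k with rfl | ⟨k', rfl⟩
    · rfl
    · rw [ext_up, ext_up, hk k' (fun h => hki (by rw [h]))]
  · rw [ext_up, ext_up]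
    rcases h1 with h1 | ⟨j, hj, h1⟩ | ⟨g, h1⟩
    · left
      rw [h1, map_inv]
    · right
      left
      refine ⟨up j, fun h => hj (up_injective h), ?_⟩
      rw [h1, map_mul, ext_up]
    · right
      right
      refine ⟨FreeGroup.map (Sum.map some id) g, ?_⟩
      rw [h1, map_mul, map_mul, map_inv]

theorem path_ext {X ι : Type} {m : ℕ} {r r' : ι ⊕ Fin m → FreeGroup (X ⊕ Fin m)}
    (h : Relation.ReflTransGen ACMove r r') : Relation.ReflTransGen ACMove (ext r) (ext r') := by
  induction h with
  | refl => exact Relation.ReflTransGen.refl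
  | tail _ h ih => exact ih.tail (ACMove.ext h)

/-- the bijection of the indices with the new generator -/
theorem exists_equiv {X ι : Type} {m : ℕ} (e : ι ⊕ Fin m ≃ X ⊕ Fin m) :
    ∃ e' : Option ι ⊕ Fin m ≃ Option X ⊕ Fin m, e' (Sum.inl none) = Sum.inl none ∧
      ∀ i, e' (up i) = up (e i) := by
  let f : Option ι ⊕ Fin m → Option X ⊕ Fin m := fun k =>
    match k with
    | Sum.inl none => Sum.inl none
    | Sum.inl (some i) => up (e (Sum.inl i))
    | Sum.inr k => up (e (Sum.inr k))
  have hf0 : f (Sum.inl none) = Sum.inl none := rfl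
  have hf : ∀ i, f (up i) = up (e i) := by
    intro i
    rcases i with i | k <;> rfl
  have hne : ∀ i : X ⊕ Fin m, up i ≠ Sum.inl none := by
    intro i
    rcases i with i | k
    · intro h
      exact Option.some_ne_none _ (Sum.inl_injective h)
    · intro h
      exact Sum.inr_ne_inl h
  have hbij : Function.Bijective f := by
    constructor
    · intro a b hab
      rcases cases_up a with rfl | ⟨a', rfl⟩
      · rcases cases_up b with rfl | ⟨b', rfl⟩
        · rfl
        · rw [hf0, hf] at hab
          exact absurd hab.symm (hne _)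
      · rcases cases_up b with rfl | ⟨b', rfl⟩
        · rw [hf0, hf] at hab
          exact absurd hab (hne _)
        · rw [hf, hf] at hab
          rw [e.injective (up_injective hab)]
    · intro k
      rcases cases_up k with rfl | ⟨k', rfl⟩
      · exact ⟨Sum.inl none, hf0⟩
      · exact ⟨up (e.symm k'), by rw [hf, e.apply_symm_apply]⟩
  exact ⟨Equiv.ofBijective f hbij, hf0, hf⟩

/-- **M9.** If `rel` 3-deforms to a point, so does `oneCellPlus rel R`. -/
theorem ac_plus {X ι : Type} [Fintype X] [Fintype ι] [DecidableEq ι] (rel : ι → Word X)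
    (h : ACTrivial rel) (R : Finset ι) : ACTrivial (oneCellPlus rel R) := by
  classical
  obtain ⟨m, e, hpath⟩ := h
  obtain ⟨e', he0, he⟩ := exists_equiv e
  refine ⟨m, e', ?_⟩
  -- the tuples with the relators `rel i`, `i ∈ A`, repaired
  set S : Finset ι → Option ι ⊕ Fin m → FreeGroup (Option X ⊕ Fin m) := fun A k =>
    match k with
    | Sum.inl none => FreeGroup.of (Sum.inl none)
    | Sum.inl (some i) =>
      if i ∈ A then FreeGroup.map Sum.inl (FreeGroup.map some (FreeGroup.mk (rel i)))
      else FreeGroup.map Sum.inl (FreeGroup.mk (oneCell rel R i))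
    | Sum.inr k => FreeGroup.of (Sum.inr k) with hS
  have hstart : Sum.elim (fun i => FreeGroup.map Sum.inl (FreeGroup.mk (oneCellPlus rel R i)))
      (fun k => FreeGroup.of (Sum.inr k)) = S ∅ := by
    funext k
    rcases k with (_ | i) | k
    · simp only [Sum.elim_inl, hS]
      show FreeGroup.map Sum.inl (FreeGroup.mk [(none, true)]) = _
      rw [mk_true, FreeGroup.map.of]
    · simp only [Sum.elim_inl, hS, Finset.notMem_empty, if_false]
      rfl
    · rfl
  rw [hstart]
  have hrep : ∀ A : Finset ι, Relation.ReflTransGen ACMove (S ∅) (S A) := by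
    intro A
    induction A using Finset.induction_on with
    | empty => exact Relation.ReflTransGen.refl
    | insert a A ha ih =>
      refine ih.trans ?_
      have hup : S (insert a A) = Function.update (S A) (Sum.inl (some a))
          (FreeGroup.map Sum.inl (FreeGroup.map some (FreeGroup.mk (rel a)))) := by
        funext k
        rcases k with (_ | i) | k
        · rw [Function.update_of_ne (by simp)]
        · by_cases hia : i = a
          · subst hia
            rw [Function.update_self]
            simp only [hS, Finset.mem_insert_self, if_true]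
          · rw [Function.update_of_ne (by simpa using hia)]
            simp only [hS, Finset.mem_insert, hia, false_or]
        · rw [Function.update_of_ne (by simp)]
      rw [hup]
      by_cases haR : a ∈ R
      · have : Function.update (S A) (Sum.inl (some a))
            (FreeGroup.map Sum.inl (FreeGroup.map some (FreeGroup.mk (rel a)))) = S A := by
          rw [Function.update_eq_self_iff]
          simp only [hS, if_neg ha]
          unfold oneCell
          rw [if_pos haR, mk_inc]
        rw [this]
      · refine path_bau (S A) (Sum.inl (some a)) (Sum.inl none) (by simp) _ ?_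
        simp only [hS, if_neg ha]
        unfold oneCell
        rw [if_neg haR, mk_bau, mk_inc]
        simp only [map_mul, map_inv, FreeGroup.map.of]
  refine (hrep Finset.univ).trans ?_
  have hext := path_ext hpath
  have e1 : S Finset.univ = ext (Sum.elim (fun i => FreeGroup.map Sum.inl (FreeGroup.mk (rel i)))
      (fun k => FreeGroup.of (Sum.inr k))) := by
    funext k
    rcases k with (_ | i) | k
    · rfl
    · simp only [hS, Finset.mem_univ, if_true, ext, Sum.elim_inl]
      rw [FreeGroup.map.comp, FreeGroup.map.comp]
      rfl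
    · simp only [hS, ext, Sum.elim_inr]
      rw [FreeGroup.map.of]
      rfl
  have e2 : (fun k => FreeGroup.of (e' k)) = ext (fun i => FreeGroup.of (e i)) := by
    funext k
    rcases cases_up k with rfl | ⟨i, rfl⟩
    · rw [he0]
      rfl
    · rw [he, ext_up, FreeGroup.map.of]
      rfl
  rw [e1, e2]
  exact hext

end Pool.Agent.OC
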