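import Pool.Agent.ZO.ACLot

/-!
# One missing 2-cell: definitions
-/

set_option autoImplicit false

namespace Pool.Agent.OC

open Pool.Agent.FoxAsph Pool.Agent.WT Pool.Agent.RelGap Pool.Agent.ZO

/-- A word on the generators `X` as a word on the generators `X` and one new generator `t`, which is
`none`. -/
def inc {X : Type} (w : Word X) : Word (Option X) := w.map fun l => (some l.1, l.2)

/-- The word `(t w t⁻¹)⁻¹ w (t w t⁻¹) w⁻²`, that is `t w⁻¹ t⁻¹ w t w t⁻¹ w⁻¹ w⁻¹`. -/
def bau {X : Type} (w : Word X) : Word (Option X) :=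
  [(none, true)] ++ FreeGroup.invRev (inc w) ++ [(none, false)] ++ inc w ++ [(none, true)] ++
    inc w ++ [(none, false)] ++ FreeGroup.invRev (inc w) ++ FreeGroup.invRev (inc w)

/-- The relators `rel i` for `i` in `R`, and for the other `i`, with `w = rel i`, the relator
`(t w t⁻¹)⁻¹ w (t w t⁻¹) w⁻²`. -/
def oneCell {X ι : Type} [DecidableEq ι] (rel : ι → Word X) (R : Finset ι) (i : ι) :
    Word (Option X) :=
  if i ∈ R then inc (rel i) else bau (rel i)

/-- The complex of `oneCell rel R` with one more 2-cell, attached along `t`. -/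
def oneCellPlus {X ι : Type} [DecidableEq ι] (rel : ι → Word X) (R : Finset ι) :
    Option ι → Word (Option X) :=
  addRel (oneCell rel R) [(none, true)]

/-- The complex of the labelled oriented tree `Γ` (generators `V`, relators `Γ.rel e`) is
aspherical. -/
def LotAspherical {V : Type} (Γ : LOT V) : Prop :=
  ∀ _ : Fintype Γ.graph.edgeSet, Aspherical Γ.rel

theorem mk_inc {X : Type} (w : Word X) :
    FreeGroup.mk (inc w) = FreeGroup.map (some : X → Option X) (FreeGroup.mk w) := by
  rw [FreeGroup.map.mk]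
  rfl

/-- the relator of a missing cell as an element of the free group -/
theorem mk_bau {X : Type} (w : Word X) :
    FreeGroup.mk (bau w) = FreeGroup.of none * (FreeGroup.mk (inc w))⁻¹ * (FreeGroup.of none)⁻¹ *
      FreeGroup.mk (inc w) * FreeGroup.of none * FreeGroup.mk (inc w) * (FreeGroup.of none)⁻¹ *
      (FreeGroup.mk (inc w))⁻¹ * (FreeGroup.mk (inc w))⁻¹ := by
  unfold bau
  rw [← FreeGroup.mul_mk, ← FreeGroup.mul_mk, ← FreeGroup.mul_mk, ← FreeGroup.mul_mk,
    ← FreeGroup.mul_mk, ← FreeGroup.mul_mk, ← FreeGroup.mul_mk, ← FreeGroup.mul_mk,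
    ← FreeGroup.inv_mk, mk_false, mk_true]

end Pool.Agent.OC
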