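import Pool.Agent.OC.Main

/-!
# One missing 2-cell: final statements
-/

set_option autoImplicit false

open scoped BigOperators
open Filter

namespace Pool.Agent.OC

open Pool.Agent.FoxAsph Pool.Agent.WT Pool.Agent.RelGap Pool.Agent.ZO

variable {X ι : Type}

/-- If every homomorphism to a solvable group kills the generators `some x`, then the commutator
subgroup is perfect. -/
theorem commutator_perfect (rel : ι → Word (Option X))
    (h : ∀ (Q : Type) [Group Q], Group.IsSolvable Q →
      ∀ (φ : Grp rel →* Q) (x : X), φ (val rel [(some x, true)]) = 1) :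
    ⁅commutator (Grp rel), commutator (Grp rel)⁆ = commutator (Grp rel) := by
  set G := Grp rel with hG
  set N : Subgroup G := ⁅commutator G, commutator G⁆ with hN
  have hNn : N.Normal := inferInstance
  have hN2 : N = derivedSeries G 2 := rfl
  apply le_antisymm (Subgroup.commutator_le_left _ _)
  -- the quotient is solvable
  have hsolv : Group.IsSolvable (G ⧸ N) := by
    refine ⟨⟨2, ?_⟩⟩
    have h1 := map_derivedSeries_eq (f := QuotientGroup.mk' N) (QuotientGroup.mk'_surjective N) 2
    rw [← h1, ← hN2, eq_bot_iff]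
    rintro _ ⟨x, hx, rfl⟩
    rw [Subgroup.mem_bot]
    exact (QuotientGroup.eq_one_iff x).2 hx
  have hφ := h (G ⧸ N) hsolv (QuotientGroup.mk' N)
  -- the quotient is generated by the image of the last generator
  have hgen : ∀ q : G ⧸ N, q ∈ Subgroup.zpowers (QuotientGroup.mk' N (val rel [(none, true)])) := by
    intro q
    obtain ⟨g, rfl⟩ := QuotientGroup.mk'_surjective N q
    obtain ⟨w, rfl⟩ := PresentedGroup.mk_surjective _ g
    induction w using FreeGroup.induction_on with
    | C1 =>
      rw [map_one, map_one]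
      exact Subgroup.one_mem _
    | of x =>
      rcases x with _ | x
      · exact Subgroup.mem_zpowers _
      · have h1 : QuotientGroup.mk' N (PresentedGroup.mk _ (FreeGroup.of (some x))) = 1 := hφ x
        rw [h1]
        exact Subgroup.one_mem _
    | inv_of x hx =>
      rw [map_inv, map_inv]
      exact Subgroup.inv_mem _ hx
    | mul a b ha hb =>
      rw [map_mul, map_mul]
      exact Subgroup.mul_mem _ ha hb
  have hcomm : ∀ a b : G ⧸ N, a * b = b * a := by
    intro a b
    obtain ⟨m, hm⟩ := Subgroup.mem_zpowers_iff.1 (hgen a)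
    obtain ⟨k, hk⟩ := Subgroup.mem_zpowers_iff.1 (hgen b)
    rw [← hm, ← hk, ← zpow_add, ← zpow_add, add_comm]
  rw [commutator_def, Subgroup.commutator_le]
  intro a _ b _
  rw [← QuotientGroup.eq_one_iff, ← QuotientGroup.mk'_apply, map_commutatorElement,
    commutatorElement_eq_one_iff_mul_comm]
  exact hcomm _ _

/-- Formulations of the question for the complexes that 3-deform to a point. -/
theorem tfae : List.TFAE [
    (∀ (X ι : Type) [Fintype X] [Fintype ι] (rel : ι → Word X), ACTrivial rel →
      ∀ (U : Set X) (S : Finset ι) (h : ∀ i ∈ S, ∀ l ∈ rel i, l.1 ∈ U),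
        Aspherical (SubPres rel U S h)),
    (∀ (n : ℕ) (Γ : LOT (Fin n)), LotAspherical Γ),
    (∀ C : ℝ, ∃ᶠ n : ℕ in atTop, ({Γ : LOT (Fin n) | ¬ LotAspherical Γ}.ncard : ℝ) <
      (n : ℝ) ^ (-C) * Nat.card (LOT (Fin n)))] := by
  tfae_have 1 ↔ 2 := partB
  tfae_have 2 → 3 := by
    intro h C
    apply Filter.Eventually.frequently
    filter_upwards [eventually_gt_atTop 0] with n hn
    have h1 : {Γ : LOT (Fin n) | ¬ LotAspherical Γ} = ∅ := by
      ext Γ
      simp only [Set.mem_setOf_eq, Set.mem_empty_iff_false, iff_false, not_not]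
      exact h n Γ
    rw [h1, Set.ncard_empty, Nat.cast_zero]
    have h2 : 0 < Nat.card (LOT (Fin n)) := by
      rw [card_lot, card_treeOn n ⟨0, hn⟩]
      positivity
    have h3 : (0 : ℝ) < n := by exact_mod_cast hn
    have h4 : (0 : ℝ) < Nat.card (LOT (Fin n)) := by exact_mod_cast h2
    exact mul_pos (Real.rpow_pos_of_pos h3 _) h4
  tfae_have 3 → 2 := by
    intro h m Γ₀
    by_contra hna
    obtain ⟨C, _, hC⟩ := many_bad Γ₀ hna
    obtain ⟨n, hn1, hn2⟩ := ((h C).and_eventually hC).exists
    exact absurd hn1 (not_lt.2 hn2)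
  tfae_finish

end Pool.Agent.OC
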