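import Pool.Agent.RelGap.Contr

/-!
# Unimodular systems over nilpotent groups
-/

set_option autoImplicit false

open scoped BigOperators

namespace Pool.Agent.OC

open Pool.Agent.FoxAsph Pool.Agent.RelGap Pool.Agent.RelGap.Contr

/-- the system `r` is solvable over all abelian groups -/
def Solv {X ι : Type} (r : ι → FreeGroup X) : Prop :=
  ∀ (A : Type) [AddCommGroup A] (n : ι → A),
    ∃ f : FreeGroup X →* Multiplicative A, ∀ i, (f (r i)).toAdd = n i

/-- the relators of a contractible presentation are a unimodular system -/
theorem solv_of_contractible {X ι : Type} [Fintype X] [Fintype ι] (rel : ι → Word X)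
    (h : Contractible rel) : Solv fun i => FreeGroup.mk (rel i) := by
  classical
  intro A _ n
  set E : ι → X → ℤ := fun i x => (ex x (FreeGroup.mk (rel i))).toAdd with hE
  have h1 : ∀ x : X, ∃ z : ι → ℤ, ∀ y, (Pi.single x (1 : ℤ) : X → ℤ) y = ∑ i, z i * E i y :=
    fun x => surj_int rel h.1 (Pi.single x 1)
  choose D hD using h1
  -- `E D = 1`
  have h2 : ∀ i j, ∑ x, E i x * D x j = if i = j then 1 else 0 := by
    intro i
    have h3 := inj_int rel h (fun j => ∑ x, E i x * D x j - if i = j then 1 else 0) (by
      intro y
      have h4 : ∀ j, (∑ x, E i x * D x j - if i = j then 1 else 0) * E j y =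
          ∑ x, E i x * (D x j * E j y) - (if i = j then E j y else 0) := by
        intro j
        rw [sub_mul, Finset.sum_mul]
        congr 1
        · exact Finset.sum_congr rfl fun x _ => by ring
        · by_cases hij : i = j <;> simp [hij]
      show ∑ j, (∑ x, E i x * D x j - if i = j then 1 else 0) * E j y = 0
      rw [Finset.sum_congr rfl fun j _ => h4 j, Finset.sum_sub_distrib, Finset.sum_comm]
      have h5 : ∀ x, ∑ j, E i x * (D x j * E j y) = E i x * (Pi.single x (1 : ℤ) : X → ℤ) y := by
        intro x
        rw [← Finset.mul_sum, hD]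
      rw [Finset.sum_congr rfl fun x _ => h5 x, Finset.sum_ite_eq]
      rw [Finset.sum_eq_single y]
      · simp
      · intro x _ hx
        simp [Pi.single_eq_of_ne (Ne.symm hx)]
      · intro hx; exact absurd (Finset.mem_univ _) hx)
    intro j
    have h6 := congrFun h3 j
    exact sub_eq_zero.1 h6
  refine ⟨FreeGroup.lift fun x => Multiplicative.ofAdd (∑ j, D x j • n j), fun i => ?_⟩
  rw [hom_eq]
  have h7 : ∀ x, (FreeGroup.lift (fun x => Multiplicative.ofAdd (∑ j, D x j • n j))
      (FreeGroup.of x)).toAdd = ∑ j, D x j • n j := by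
    intro x
    rw [FreeGroup.lift_apply_of]; rfl
  have h8 : ∀ x, (ex x (FreeGroup.mk (rel i))).toAdd •
      (FreeGroup.lift (fun x => Multiplicative.ofAdd (∑ j, D x j • n j)) (FreeGroup.of x)).toAdd =
      ∑ j, (E i x * D x j) • n j := by
    intro x
    rw [h7, Finset.smul_sum]
    exact Finset.sum_congr rfl fun j _ => by rw [smul_smul]
  rw [Finset.sum_congr rfl fun x _ => h8 x, Finset.sum_comm]
  have h9 : ∀ j, ∑ x, (E i x * D x j) • n j = if i = j then n j else 0 := by
    intro j
    rw [← Finset.sum_smul, h2]
    by_cases hij : i = j <;> simp [hij]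
  rw [Finset.sum_congr rfl fun j _ => h9 j, Finset.sum_ite_eq]
  simp

/-- multiplication of a homomorphism by a homomorphism to the centre -/
def mulCentral {F N : Type} [Group F] [Group N] (f : F →* N) (a : F →* Subgroup.center N) :
    F →* N where
  toFun w := f w * (a w : N)
  map_one' := by rw [map_one, map_one]; simp
  map_mul' u v := by
    have h : ∀ y : N, (a u : N) * y = y * (a u : N) := fun y =>
      (Subgroup.mem_center_iff.1 (a u).2 y).symm
    rw [map_mul, map_mul, Subgroup.coe_mul]
    calc f u * f v * ((a u : N) * (a v : N)) = f u * (f v * (a u : N)) * (a v : N) := by group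
      _ = f u * ((a u : N) * f v) * (a v : N) := by rw [h]
      _ = f u * (a u : N) * (f v * (a v : N)) := by group

/-- **Unimodular systems are solvable over nilpotent groups.** -/
theorem nil_solve {X ι : Type} (r : ι → FreeGroup X) (hr : Solv r) (N : Type) [Group N]
    [Group.IsNilpotent N] (n : ι → N) : ∃ f : FreeGroup X →* N, ∀ i, f (r i) = n i := by
  revert n
  refine Group.nilpotent_center_quotient_ind
    (P := fun N _ _ => ∀ n : ι → N, ∃ f : FreeGroup X →* N, ∀ i, f (r i) = n i) N ?_ ?_
  · intro G _ _ n
    exact ⟨1, fun i => Subsingleton.elim _ _⟩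
  · intro G _ _ ih n
    obtain ⟨g, hg⟩ := ih fun i => QuotientGroup.mk (n i)
    -- a lift of `g`
    choose s hs using fun x => QuotientGroup.mk_surjective (g (FreeGroup.of x))
    let f : FreeGroup X →* G := FreeGroup.lift s
    have hf : (QuotientGroup.mk' (Subgroup.center G)).comp f = g := by
      apply FreeGroup.ext_hom
      intro x
      rw [MonoidHom.comp_apply]
      simp only [f, FreeGroup.lift_apply_of]
      exact hs x
    have hc : ∀ i, (f (r i))⁻¹ * n i ∈ Subgroup.center G := by
      intro i
      have h1 : QuotientGroup.mk' (Subgroup.center G) (f (r i)) =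
          QuotientGroup.mk' (Subgroup.center G) (n i) := by
        rw [← MonoidHom.comp_apply, hf]
        exact hg i
      exact QuotientGroup.eq.1 h1
    letI : CommGroup (Subgroup.center G) :=
      { (inferInstance : Group (Subgroup.center G)) with
        mul_comm := fun a b => Subtype.ext (Subgroup.mem_center_iff.1 b.2 a.1) }
    obtain ⟨a, ha⟩ := hr (Additive (Subgroup.center G)) fun i =>
      Additive.ofMul ⟨(f (r i))⁻¹ * n i, hc i⟩
    let a' : FreeGroup X →* Subgroup.center G :=
      { toFun := fun w => Additive.toMul (Multiplicative.toAdd (a w))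
        map_one' := by rw [map_one]; rfl
        map_mul' := fun u v => by rw [map_mul]; rfl }
    refine ⟨mulCentral f a', fun i => ?_⟩
    have h2 : a' (r i) = ⟨(f (r i))⁻¹ * n i, hc i⟩ := by
      show Additive.toMul (Multiplicative.toAdd (a (r i))) = _
      rw [ha i]
      rfl
    show f (r i) * (a' (r i) : G) = n i
    rw [h2]
    show f (r i) * ((f (r i))⁻¹ * n i) = n i
    group

end Pool.Agent.OC
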