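import Mathlib

/-!
# Free groups are residually nilpotent
-/

set_option autoImplicit false

open scoped BigOperators

namespace Pool.Agent.OC

section Strict

variable {m : ℕ} {R : Type} [CommRing R]

/-- matrices that vanish below the `a`-th diagonal above the main one -/
def Up (a : ℕ) (A : Matrix (Fin m) (Fin m) R) : Prop :=
  ∀ i j : Fin m, (j : ℕ) < i + a → A i j = 0

theorem Up.add {a : ℕ} {A B : Matrix (Fin m) (Fin m) R} (hA : Up a A) (hB : Up a B) :
    Up a (A + B) := fun i j h => by
  rw [Matrix.add_apply, hA i j h, hB i j h, add_zero]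

theorem Up.mul {a b : ℕ} {A B : Matrix (Fin m) (Fin m) R} (hA : Up a A) (hB : Up b B) :
    Up (a + b) (A * B) := fun i j h => by
  rw [Matrix.mul_apply]
  apply Finset.sum_eq_zero
  intro k _
  by_cases h1 : (k : ℕ) < i + a
  · rw [hA i k h1, zero_mul]
  · rw [hB k j (by omega), mul_zero]

theorem Up.pow {A : Matrix (Fin m) (Fin m) R} (hA : Up 1 A) (k : ℕ) : Up k (A ^ k) := by
  induction k with
  | zero =>
    intro i j h
    rw [pow_zero, Matrix.one_apply_ne]
    intro hij
    subst hij
    omega
  | succ k ih =>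
    rw [pow_succ]
    exact ih.mul hA

theorem Up.eq_zero {A : Matrix (Fin m) (Fin m) R} (hA : Up m A) : A = 0 := by
  ext i j
  exact hA i j (by omega)

theorem Up.mul_sub_one {A B : Matrix (Fin m) (Fin m) R} (hA : Up 1 (A - 1)) (hB : Up 1 (B - 1)) :
    Up 1 (A * B - 1) := by
  have h : A * B - 1 = (A - 1) * (B - 1) + ((A - 1) + (B - 1)) := by noncomm_ring
  rw [h]
  refine Up.add (fun i j hij => ?_) (hA.add hB)
  exact (hA.mul hB) i j (by omega)

end Strict

section Step

variable {S : Type} (s : ℕ) (ys : ℕ → S) (p : ℕ)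

open Classical in
/-- the step matrix of the generator `y` -/
noncomputable def stepM (y : S) : Matrix (Fin (s + 1)) (Fin (s + 1)) (ZMod p) :=
  fun i j => if (j : ℕ) = i + 1 ∧ ys i = y then 1 else 0

theorem up_stepM (y : S) : Up 1 (stepM s ys p y) := fun i j h => by
  unfold stepM
  rw [if_neg]
  intro h1
  omega

theorem stepM_mul (hys : ∀ i, i + 1 < s → ys i ≠ ys (i + 1)) (y : S) :
    stepM s ys p y * stepM s ys p y = 0 := by
  ext i j
  rw [Matrix.mul_apply, Matrix.zero_apply]
  apply Finset.sum_eq_zero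
  intro k _
  unfold stepM
  by_cases h1 : (k : ℕ) = i + 1 ∧ ys i = y
  · by_cases h2 : (j : ℕ) = k + 1 ∧ ys k = y
    · exfalso
      have h3 : (i : ℕ) + 1 < s := by omega
      apply hys i h3
      rw [h1.2, ← h1.1, h2.2]
    · rw [if_neg h2, mul_zero]
  · rw [if_neg h1, zero_mul]

/-- the unit `1 + stepM y` -/
noncomputable def stepU (hys : ∀ i, i + 1 < s → ys i ≠ ys (i + 1)) (y : S) :
    (Matrix (Fin (s + 1)) (Fin (s + 1)) (ZMod p))ˣ where
  val := 1 + stepM s ys p y
  inv := 1 - stepM s ys p y
  val_inv := by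
    have h := stepM_mul s ys p hys y
    have h1 : (1 + stepM s ys p y) * (1 - stepM s ys p y) =
      1 - stepM s ys p y * stepM s ys p y := by noncomm_ring
    rw [h1, h, sub_zero]
  inv_val := by
    have h := stepM_mul s ys p hys y
    have h1 : (1 - stepM s ys p y) * (1 + stepM s ys p y) =
      1 - stepM s ys p y * stepM s ys p y := by noncomm_ring
    rw [h1, h, sub_zero]

theorem stepU_zpow (hys : ∀ i, i + 1 < s → ys i ≠ ys (i + 1)) (y : S) (e : ℤ) :
    ((stepU s ys p hys y ^ e : (Matrix (Fin (s + 1)) (Fin (s + 1)) (ZMod p))ˣ) :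
      Matrix (Fin (s + 1)) (Fin (s + 1)) (ZMod p)) = 1 + (e : ZMod p) • stepM s ys p y := by
  have h := stepM_mul s ys p hys y
  induction e with
  | zero => simp
  | succ n ih =>
    rw [zpow_add_one, Units.val_mul, ih]
    show (1 + ((n : ℤ) : ZMod p) • stepM s ys p y) * (1 + stepM s ys p y) = _
    rw [add_mul, mul_add, mul_add, smul_mul_assoc, smul_mul_assoc, h, smul_zero]
    push_cast
    rw [add_smul, one_smul, mul_one, mul_one, one_mul]
    abel
  | pred n ih =>
    rw [zpow_sub_one, Units.val_mul, ih]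
    show (1 + ((-n : ℤ) : ZMod p) • stepM s ys p y) * (1 - stepM s ys p y) = _
    rw [add_mul, mul_sub, mul_sub, smul_mul_assoc, smul_mul_assoc, h, smul_zero]
    push_cast
    rw [sub_smul, one_smul, mul_one, mul_one, one_mul]
    abel

/-- the key entry of the product -/
theorem entry (L : List (S × ℤ)) (hL : ∀ i (h : i < L.length), L[i].1 = ys i) (hs : s = L.length)
    (k : ℕ) (hk : k ≤ s) :
    (∀ j : Fin (s + 1), (j : ℕ) < k →
      (((L.drop k).map fun x => 1 + (x.2 : ZMod p) • stepM s ys p x.1).prod) j (Fin.last s) = 0) ∧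
    (((L.drop k).map fun x => 1 + (x.2 : ZMod p) • stepM s ys p x.1).prod)
        ⟨k, by omega⟩ (Fin.last s) = ((L.drop k).map fun x => (x.2 : ZMod p)).prod := by
  obtain ⟨d, hd⟩ : ∃ d, k + d = s := ⟨s - k, by omega⟩
  induction d generalizing k with
  | zero =>
    have hk' : k = s := by omega
    subst hk'
    have h1 : L.drop k = [] := List.drop_eq_nil_of_le (by omega)
    rw [h1]
    constructor
    · intro j hj
      simp only [List.map_nil, List.prod_nil]
      rw [Matrix.one_apply_ne]
      intro h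
      rw [h] at hj
      simp at hj
    · simp only [List.map_nil, List.prod_nil]
      rw [show (⟨k, by omega⟩ : Fin (k + 1)) = Fin.last k from rfl, Matrix.one_apply_eq]
  | succ d ih =>
    have hk1 : k < L.length := by omega
    obtain ⟨ih1, ih2⟩ := ih (k + 1) (by omega) (by omega)
    rw [List.drop_eq_getElem_cons hk1, List.map_cons, List.prod_cons, List.map_cons,
      List.prod_cons]
    set Q := ((L.drop (k + 1)).map fun x => 1 + (x.2 : ZMod p) • stepM s ys p x.1).prod with hQ
    have hrow : ∀ j : Fin (s + 1), ((1 + ((L[k]).2 : ZMod p) • stepM s ys p (L[k]).1) * Q) j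
        (Fin.last s) = Q j (Fin.last s) + ((L[k]).2 : ZMod p) *
          ∑ i, stepM s ys p (L[k]).1 j i * Q i (Fin.last s) := by
      intro j
      rw [add_mul, one_mul, Matrix.add_apply, smul_mul_assoc, Matrix.smul_apply, Matrix.mul_apply,
        smul_eq_mul]
    constructor
    · intro j hj
      rw [hrow, ih1 j (by omega)]
      have h0 : ∑ i, stepM s ys p (L[k]).1 j i * Q i (Fin.last s) = 0 := by
        apply Finset.sum_eq_zero
        intro i _
        by_cases h1 : (i : ℕ) < k + 1
        · rw [ih1 i h1, mul_zero]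
        · rw [show stepM s ys p (L[k]).1 j i = 0 from by
            unfold stepM
            rw [if_neg]
            intro h
            omega, zero_mul]
      rw [h0, mul_zero, add_zero]
    · rw [hrow, ih1 ⟨k, by omega⟩ (by simp)]
      have h0 : ∑ i, stepM s ys p (L[k]).1 ⟨k, by omega⟩ i * Q i (Fin.last s) =
          Q ⟨k + 1, by omega⟩ (Fin.last s) := by
        rw [Finset.sum_eq_single ⟨k + 1, by omega⟩]
        · rw [show stepM s ys p (L[k]).1 ⟨k, by omega⟩ ⟨k + 1, by omega⟩ = 1 from by
            unfold stepM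
            rw [if_pos]
            exact ⟨rfl, (hL k hk1).symm⟩, one_mul]
        · intro i _ hi
          rw [show stepM s ys p (L[k]).1 ⟨k, by omega⟩ i = 0 from by
            unfold stepM
            rw [if_neg]
            intro h
            apply hi
            exact Fin.ext h.1, zero_mul]
        · intro h; exact absurd (Finset.mem_univ _) h
      rw [h0, ih2, zero_add]

end Step

/-- a finite group of unipotent matrices is nilpotent -/
theorem nil_range {F : Type} [Group F] {s p : ℕ} [Fact p.Prime]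
    (f : F →* (Matrix (Fin (s + 1)) (Fin (s + 1)) (ZMod p))ˣ)
    (hf : ∀ w, Up 1 ((f w : Matrix (Fin (s + 1)) (Fin (s + 1)) (ZMod p)) - 1)) :
    Group.IsNilpotent f.range := by
  have hfin : Finite f.range := inferInstance
  have hP : IsPGroup p f.range := by
    rintro ⟨_, w, rfl⟩
    obtain ⟨k, hk⟩ : ∃ k, s + 1 ≤ p ^ k :=
      ⟨s + 1, (Nat.lt_pow_self (Fact.out : p.Prime).one_lt).le⟩
    refine ⟨k, ?_⟩
    apply Subtype.ext
    apply Units.ext
    rw [Subgroup.coe_pow, Units.val_pow_eq_pow_val]
    have h1 : (f w : Matrix (Fin (s + 1)) (Fin (s + 1)) (ZMod p)) =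
        1 + ((f w : Matrix (Fin (s + 1)) (Fin (s + 1)) (ZMod p)) - 1) := by abel
    have h2 : ((f w : Matrix (Fin (s + 1)) (Fin (s + 1)) (ZMod p)) - 1) ^ (p ^ k) = 0 := by
      have h3 : ((f w : Matrix (Fin (s + 1)) (Fin (s + 1)) (ZMod p)) - 1) ^ (s + 1) = 0 :=
        Up.eq_zero ((hf w).pow (s + 1))
      obtain ⟨d, hd⟩ := Nat.exists_eq_add_of_le hk
      rw [hd, pow_add, h3, zero_mul]
    have h4 : (f w : Matrix (Fin (s + 1)) (Fin (s + 1)) (ZMod p)) ^ (p ^ k) = 1 := by
      rw [h1, add_pow_char_pow_of_commute p k (Commute.one_left _), one_pow, h2, add_zero]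
    exact h4
  exact hP.isNilpotent

/-- **Free groups are residually nilpotent.** -/
theorem free_sep {S : Type} (u : FreeGroup S) (hu : u ≠ 1) :
    ∃ (N : Type) (_ : Group N) (_ : Group.IsNilpotent N) (f : FreeGroup S →* N), f u ≠ 1 := by
  classical
  have hS : Nonempty S := by
    by_contra h
    rw [not_nonempty_iff] at h
    exact hu (Subsingleton.elim _ _)
  obtain ⟨y₀⟩ := hS
  set w := Monoid.CoprodI.Word.equiv (freeGroupEquivCoprodI u) with hw
  -- the list of syllables
  set L : List (S × ℤ) := w.toList.map fun l => (l.1, FreeGroup.freeGroupUnitEquivInt l.2) with hLdef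
  have hwprod : w.prod = freeGroupEquivCoprodI u := Monoid.CoprodI.Word.equiv.left_inv _
  have hne : w.toList ≠ [] := by
    intro h
    apply hu
    have h1 : w = Monoid.CoprodI.Word.empty := by
      apply Monoid.CoprodI.Word.ext
      exact h
    rw [h1, Monoid.CoprodI.Word.prod_empty] at hwprod
    exact (map_eq_one_iff _ (MulEquiv.injective freeGroupEquivCoprodI)).1 hwprod.symm
  set s := L.length with hs
  have hspos : 0 < s := by
    rw [hs, hLdef, List.length_map]
    exact List.length_pos_iff.2 hne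
  set ys : ℕ → S := fun i => if h : i < L.length then L[i].1 else y₀ with hys
  have hL : ∀ i (h : i < L.length), L[i].1 = ys i := fun i h => by
    rw [hys]
    simp only [dif_pos h]
  have hys' : ∀ i, i + 1 < s → ys i ≠ ys (i + 1) := by
    intro i hi
    rw [← hL i (by omega), ← hL (i + 1) (by omega)]
    have h1 := List.isChain_iff_getElem.1 w.chain_ne i (by
      rw [hs, hLdef, List.length_map] at hi
      omega)
    simpa [hLdef] using h1
  obtain ⟨p, hpB, hp⟩ := Nat.exists_infinite_primes
    (((L.map fun x => x.2.natAbs).sum) + 1)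
  have : Fact p.Prime := ⟨hp⟩
  have hcoef : ∀ x ∈ L, (x.2 : ZMod p) ≠ 0 := by
    intro x hx h0
    rw [ZMod.intCast_zmod_eq_zero_iff_dvd] at h0
    have hx2 : x.2 ≠ 0 := by
      rw [hLdef, List.mem_map] at hx
      obtain ⟨l, hl, rfl⟩ := hx
      intro h
      apply w.ne_one l hl
      have h2 : l.2 = FreeGroup.freeGroupUnitEquivInt.symm (FreeGroup.freeGroupUnitEquivInt l.2) :=
        (FreeGroup.freeGroupUnitEquivInt.symm_apply_apply l.2).symm
      rw [h2]
      have h3 : FreeGroup.freeGroupUnitEquivInt l.2 = 0 := h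
      rw [h3]
      exact zpow_zero _
    have h4 : x.2.natAbs ≤ (L.map fun x => x.2.natAbs).sum :=
      List.single_le_sum (fun _ _ => Nat.zero_le _) _ (List.mem_map.2 ⟨x, hx, rfl⟩)
    have h5 : p ≤ x.2.natAbs := Nat.le_of_dvd (Int.natAbs_pos.2 hx2) (Int.natCast_dvd.1 h0)
    omega
  let f : FreeGroup S →* (Matrix (Fin (s + 1)) (Fin (s + 1)) (ZMod p))ˣ :=
    FreeGroup.lift (stepU s ys p hys')
  have hfup : ∀ v, Up 1 ((f v : Matrix (Fin (s + 1)) (Fin (s + 1)) (ZMod p)) - 1) := by
    intro v
    induction v using FreeGroup.induction_on with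
    | C1 =>
      rw [map_one, Units.val_one, sub_self]
      intro i j _
      rfl
    | of x =>
      have h1 : f (FreeGroup.of x) = stepU s ys p hys' x := FreeGroup.lift_apply_of ..
      rw [h1]
      show Up 1 ((1 + stepM s ys p x) - 1)
      rw [add_sub_cancel_left]
      exact up_stepM s ys p x
    | inv_of x _ =>
      have h1 : f (FreeGroup.of x) = stepU s ys p hys' x := FreeGroup.lift_apply_of ..
      rw [map_inv, h1]
      show Up 1 ((1 - stepM s ys p x) - 1)
      have h2 : (1 - stepM s ys p x) - 1 = -stepM s ys p x := by abel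
      rw [h2]
      intro i j hij
      rw [Matrix.neg_apply, up_stepM s ys p x i j hij, neg_zero]
    | mul a b ha hb =>
      rw [map_mul, Units.val_mul]
      exact ha.mul_sub_one hb
  refine ⟨f.range, inferInstance, nil_range f hfup, f.rangeRestrict, ?_⟩
  intro h0
  have h1 : f u = 1 := congrArg Subtype.val h0
  -- the value of `f u`
  let F' : Monoid.CoprodI (fun _ : S => FreeGroup Unit) →*
      (Matrix (Fin (s + 1)) (Fin (s + 1)) (ZMod p))ˣ :=
    Monoid.CoprodI.lift fun y => FreeGroup.lift fun _ => stepU s ys p hys' y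
  have hF' : F'.comp freeGroupEquivCoprodI.toMonoidHom = f := by
    apply FreeGroup.ext_hom
    intro y
    simp [F', f, freeGroupEquivCoprodI]
  have h2 : f u = F' w.prod := by
    rw [hwprod, ← hF']
    rfl
  have h3 : ((F' w.prod : (Matrix (Fin (s + 1)) (Fin (s + 1)) (ZMod p))ˣ) :
      Matrix (Fin (s + 1)) (Fin (s + 1)) (ZMod p)) =
      (L.map fun x => 1 + (x.2 : ZMod p) • stepM s ys p x.1).prod := by
    rw [Monoid.CoprodI.Word.prod, map_list_prod, List.map_map, hLdef, List.map_map,
      ← Units.coeHom_apply, map_list_prod, List.map_map]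
    congr 1
    apply List.map_congr_left
    intro l _
    simp only [Function.comp_apply, Units.coeHom_apply]
    rw [← stepU_zpow s ys p hys']
    congr 1
    have h4 : F' (Monoid.CoprodI.of (i := l.1) l.2) =
        (FreeGroup.lift fun _ : Unit => stepU s ys p hys' l.1) l.2 := by
      simp only [F', Monoid.CoprodI.lift_of]
    rw [h4]
    have h5 : l.2 = (FreeGroup.of () : FreeGroup Unit) ^ (FreeGroup.freeGroupUnitEquivInt l.2) :=
      (FreeGroup.freeGroupUnitEquivInt.symm_apply_apply l.2).symm
    conv_lhs => rw [h5]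
    rw [map_zpow, FreeGroup.lift_apply_of]
  have h6 := (entry s ys p L hL hs 0 (Nat.zero_le _)).2
  rw [List.drop_zero, ← h3, ← h2, h1] at h6
  have h7 : ((1 : (Matrix (Fin (s + 1)) (Fin (s + 1)) (ZMod p))ˣ) :
      Matrix (Fin (s + 1)) (Fin (s + 1)) (ZMod p)) ⟨0, by omega⟩ (Fin.last s) = 0 := by
    rw [Units.val_one, Matrix.one_apply_ne]
    intro h
    have := congrArg Fin.val h
    simp at this
    omega
  rw [h7] at h6
  have h8 : ((L.map fun x => (x.2 : ZMod p)).prod) ≠ 0 := by
    apply List.prod_ne_zero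
    intro h
    rw [List.mem_map] at h
    obtain ⟨x, hx, hx0⟩ := h
    exact hcoef x hx hx0
  exact h8 h6.symm

end Pool.Agent.OC
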