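import Pool.Agent.OC.Defs
import Pool.Agent.OC.Nil
import Pool.Agent.OC.Res

/-!
# The missing relators freely generate a free group
-/

set_option autoImplicit false

open scoped BigOperators

namespace Pool.Agent.OC

open Pool.Agent.FoxAsph Pool.Agent.WT Pool.Agent.RelGap Pool.Agent.ZO

/-- **Freiheitssatz for the missing cells** (Stallings). If a system consisting of the relators
`rel i` and the elements `mis j` is solvable over all abelian groups, then the elements `mis j` are a
basis of a free subgroup of the group with the relators `rel i`. -/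
theorem free_missing {X R S : Type} (rel : R → Word X) (mis : S → FreeGroup X)
    (h : Solv (Sum.elim (fun i => FreeGroup.mk (rel i)) mis)) :
    Function.Injective (FreeGroup.lift fun j => valF rel (mis j)) := by
  rw [injective_iff_map_eq_one]
  intro u hu
  by_contra hne
  obtain ⟨N, _, _, f, hf⟩ := free_sep u hne
  obtain ⟨θ, hθ⟩ := nil_solve _ h N (Sum.elim (fun _ => 1) (fun j => f (FreeGroup.of j)))
  obtain ⟨φ, hφ⟩ := exists_map rel θ (fun i => hθ (Sum.inl i))
  apply hf
  have h1 : f = φ.comp (FreeGroup.lift fun j => valF rel (mis j)) := by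
    apply FreeGroup.ext_hom
    intro j
    rw [MonoidHom.comp_apply, FreeGroup.lift_apply_of, hφ]
    exact (hθ (Sum.inr j)).symm
  rw [h1, MonoidHom.comp_apply, hu, map_one]

/-- the case of the missing relators of a contractible presentation -/
theorem free_missing_contractible {X ι : Type} [Fintype X] [Fintype ι] (rel : ι → Word X)
    (h : Contractible rel) (R : Finset ι) :
    Function.Injective (FreeGroup.lift fun j : {i : ι // i ∉ R} =>
      valF (fun i : R => rel i) (FreeGroup.mk (rel j))) := by
  classical
  refine free_missing (fun i : R => rel i) (fun j : {i : ι // i ∉ R} => FreeGroup.mk (rel j)) ?_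
  intro A _ n
  obtain ⟨f, hf⟩ := solv_of_contractible rel h A
    (fun i => if hi : i ∈ R then n (Sum.inl ⟨i, hi⟩) else n (Sum.inr ⟨i, hi⟩))
  refine ⟨f, fun i => ?_⟩
  rcases i with i | j
  · show (f (FreeGroup.mk (rel i))).toAdd = _
    rw [hf, dif_pos i.2]
  · show (f (FreeGroup.mk (rel j))).toAdd = _
    rw [hf, dif_neg j.2]

end Pool.Agent.OC
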