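import Pool.Agent.OC.Tree
import Pool.Agent.OC.Free

/-!
# A non-aspherical labelled oriented forest gives a non-aspherical labelled oriented tree
-/

set_option autoImplicit false

namespace Pool.Agent.OC

open Pool.Agent.FoxAsph Pool.Agent.WT Pool.Agent.ZO Pool.Agent.RelGap

theorem lot_of_lof (F : LOF) (hF : ¬ Aspherical F.rel) :
    ∃ (n : ℕ) (Γ : LOT (Fin n)), ¬ LotAspherical Γ :=
  lot_of_lof' (fun F => free_missing F.rel (fun j : JJ F => FreeGroup.of (rp F j))
    (solv_forest F)) F hF

end Pool.Agent.OC
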