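import Pool.Agent.OneCell.BadCount
import Pool.Agent.OC.Defs

/-!
# One non-aspherical labelled oriented tree gives many
-/

set_option autoImplicit false

open scoped BigOperators

namespace Pool.Agent.OC

open Pool.Agent.FoxAsph Pool.Agent.WT Pool.Agent.ZO Pool.Agent.OneCell

theorem lotAsph_iff {V : Type} [Finite V] (Γ : LOT V) : LotAsph Γ ↔ LotAspherical Γ := by
  unfold LotAsph LotAspherical
  constructor
  · intro h i
    have : i = Fintype.ofFinite _ := Subsingleton.elim _ _
    rw [this]
    exact h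
  · intro h
    exact h _

/-- If the complex of one labelled oriented tree is not aspherical, then for some `C` and all large
`n` the complexes of at least a proportion `n ^ (-C)` of the labelled oriented trees on `Fin n` are
not aspherical. -/
theorem many_bad {m : ℕ} (Γ₀ : LOT (Fin m)) (h : ¬ LotAspherical Γ₀) :
    ∃ C : ℝ, 0 < C ∧ ∀ᶠ n : ℕ in Filter.atTop, (n : ℝ) ^ (-C) * Nat.card (LOT (Fin n)) ≤
      ({Γ : LOT (Fin n) | ¬ LotAspherical Γ}.ncard : ℝ) := by
  have hm : 0 < m := by
    have hne : Nonempty (Fin m) := Γ₀.isTree.connected.nonempty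
    exact Fin.pos_iff_nonempty.2 hne
  refine ⟨6 * m, by positivity, ?_⟩
  have h0 : ¬ LotAsph Γ₀ := fun hh => h ((lotAsph_iff Γ₀).1 hh)
  filter_upwards [bad_proportion Γ₀ h0] with n hn
  have hset : {Γ : LOT (Fin n) | ¬ LotAspherical Γ} = {Γ : LOT (Fin n) | ¬ LotAsph Γ} := by
    ext Γ
    exact not_congr (lotAsph_iff Γ).symm
  rw [hset]
  exact hn

end Pool.Agent.OC
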