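import Pool.Agent.OC.Defs
import Pool.Agent.RelGap.Contr
import Pool.Agent.ZO.Func
import Pool.Agent.WOne.Quot

/-!
# One missing 2-cell: the enlarged complex is contractible, and the finite and solvable quotients
-/

set_option autoImplicit false

open scoped BigOperators

namespace Pool.Agent.OC

open Pool.Agent.FoxAsph Pool.Agent.WT Pool.Agent.RelGap Pool.Agent.ZO

namespace PlusAux

variable {X ι : Type}

/-- the value of an element of the free group -/
abbrev vF (rel : ι → Word X) : FreeGroup X →* Grp rel := PresentedGroup.mk _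

theorem vF_rel (rel : ι → Word X) (i : ι) : vF rel (FreeGroup.mk (rel i)) = 1 :=
  PresentedGroup.one_of_mem ⟨i, rfl⟩

theorem exists_map {G : Type} [Group G] (rel : ι → Word X) (θ : FreeGroup X →* G)
    (h : ∀ i, θ (FreeGroup.mk (rel i)) = 1) : ∃ φ : Grp rel →* G, ∀ w, φ (vF rel w) = θ w := by
  have h1 : ∀ r ∈ Set.range fun i => FreeGroup.mk (rel i),
      FreeGroup.lift (fun x => θ (FreeGroup.of x)) r = 1 := by
    rintro _ ⟨i, rfl⟩
    rw [← h i]
    exact DFunLike.congr_fun (FreeGroup.ext_hom (FreeGroup.lift fun x => θ (FreeGroup.of x)) θ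
      (fun x => by rw [FreeGroup.lift_apply_of])) _
  refine ⟨PresentedGroup.toGroup h1, fun w => ?_⟩
  have h2 : (PresentedGroup.toGroup h1).comp (vF rel) = θ := by
    refine FreeGroup.ext_hom _ _ fun x => ?_
    show PresentedGroup.toGroup h1 (PresentedGroup.of x) = _
    rw [PresentedGroup.toGroup.of]
  exact DFunLike.congr_fun h2 w

/-- a homomorphism that kills the relators of a presentation of the trivial group is trivial -/
theorem hom_trivial {G : Type} [Group G] (rel : ι → Word X) (h : Subsingleton (Grp rel))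
    (θ : FreeGroup X →* G) (hθ : ∀ i, θ (FreeGroup.mk (rel i)) = 1) (w : FreeGroup X) :
    θ w = 1 := by
  obtain ⟨φ, hφ⟩ := exists_map rel θ hθ
  rw [← hφ w, Subsingleton.elim (vF rel w) 1, map_one]

/-- the value of the word `bau w` -/
theorem hom_bau {G : Type} [Group G] (θ : FreeGroup (Option X) →* G) (w : Word X) :
    θ (FreeGroup.mk (bau w)) = θ (FreeGroup.of none) * (θ (FreeGroup.mk (inc w)))⁻¹ *
      (θ (FreeGroup.of none))⁻¹ * θ (FreeGroup.mk (inc w)) * θ (FreeGroup.of none) *
      θ (FreeGroup.mk (inc w)) * (θ (FreeGroup.of none))⁻¹ *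
      (θ (FreeGroup.mk (inc w)))⁻¹ * (θ (FreeGroup.mk (inc w)))⁻¹ := by
  rw [mk_bau]
  simp only [map_mul, map_inv]

section plus

variable [DecidableEq ι] (rel : ι → Word X) (R : Finset ι)

theorem plus_trivial (h : Subsingleton (Grp rel)) : Subsingleton (Grp (oneCellPlus rel R)) := by
  set P := oneCellPlus rel R with hP
  have ht : vF P (FreeGroup.of none) = 1 := vF_rel P none
  let θ : FreeGroup X →* Grp P := (vF P).comp (FreeGroup.map some)
  have hθ : ∀ i, θ (FreeGroup.mk (rel i)) = 1 := by
    intro i
    have h0 : θ (FreeGroup.mk (rel i)) = vF P (FreeGroup.mk (inc (rel i))) := by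
      rw [mk_inc]; rfl
    rw [h0]
    have h1 : vF P (FreeGroup.mk (oneCell rel R i)) = 1 := vF_rel P (some i)
    unfold oneCell at h1
    split_ifs at h1 with hi
    · exact h1
    · rw [hom_bau, ht] at h1
      simpa using h1
  have hid : MonoidHom.id (Grp P) = 1 := by
    refine PresentedGroup.ext (fun y => ?_)
    simp only [MonoidHom.id_apply, MonoidHom.one_apply]
    rcases y with _ | x
    · exact ht
    · have h2 := hom_trivial rel h θ hθ (FreeGroup.of x)
      have h3 : θ (FreeGroup.of x) = vF P (FreeGroup.of (some x)) := by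
        simp [θ]
      rw [h3] at h2
      exact h2
  refine ⟨fun a b => ?_⟩
  have ha := DFunLike.congr_fun hid a
  have hb := DFunLike.congr_fun hid b
  simp only [MonoidHom.id_apply, MonoidHom.one_apply] at ha hb
  rw [ha, hb]

end plus

/-- exponent sums of the word `inc w` -/
theorem ex_inc (x : X) (w : Word X) :
    Contr.ex (some x) (FreeGroup.mk (inc w)) = Contr.ex x (FreeGroup.mk w) := by
  rw [mk_inc]
  have h : (Contr.ex (some x)).comp (FreeGroup.map (some : X → Option X)) = Contr.ex x := by
    refine FreeGroup.ext_hom _ _ fun y => ?_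
    have h1 := Contr.ex_true (some x) (some y)
    have h2 := Contr.ex_true x y
    apply Multiplicative.toAdd.injective
    rw [MonoidHom.comp_apply, FreeGroup.map.of]
    refine h1.trans (Eq.trans ?_ h2.symm)
    by_cases hyx : y = x
    · rw [if_pos hyx, if_pos (congrArg some hyx)]
    · rw [if_neg hyx, if_neg fun h => hyx (Option.some_injective _ h)]
  exact DFunLike.congr_fun h (FreeGroup.mk w)

theorem ex_inc_none (w : Word X) : Contr.ex none (FreeGroup.mk (inc w)) = 1 := by
  rw [mk_inc]
  have h : (Contr.ex none).comp (FreeGroup.map (some : X → Option X)) = 1 := by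
    refine FreeGroup.ext_hom _ _ fun y => ?_
    have h1 := Contr.ex_true (none : Option X) (some y)
    apply Multiplicative.toAdd.injective
    rw [MonoidHom.comp_apply, FreeGroup.map.of]
    refine h1.trans ?_
    rw [if_neg (by simp)]
    rfl
  exact DFunLike.congr_fun h (FreeGroup.mk w)

theorem toAdd_bau (f : FreeGroup (Option X) →* Multiplicative ℤ) (w : Word X) :
    (f (FreeGroup.mk (bau w))).toAdd = -(f (FreeGroup.mk (inc w))).toAdd := by
  rw [hom_bau]
  simp only [toAdd_mul, toAdd_inv]
  ring

theorem aug_inj {G : Type} [Group G] [Subsingleton G] (a : MonoidAlgebra ℤ G)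
    (h : MonoidAlgebra.lift ℤ ℤ G (1 : G →* ℤ) a = 0) : a = 0 := by
  have key : ∀ a : MonoidAlgebra ℤ G,
      a = ((MonoidAlgebra.lift ℤ ℤ G (1 : G →* ℤ) a : ℤ) : MonoidAlgebra ℤ G) := by
    intro a
    induction a using MonoidAlgebra.induction_on with
    | of g =>
      rw [Subsingleton.elim g 1, map_one, map_one, Int.cast_one]
    | add f g hf hg =>
      rw [map_add, Int.cast_add, ← hf, ← hg]
    | smul r f hf =>
      rw [map_smul, smul_eq_mul, Int.cast_mul, ← hf]
      rw [zsmul_eq_mul]
  rw [key a, h, Int.cast_zero]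

end PlusAux

open PlusAux

theorem contractible_plus {X ι : Type} [Fintype X] [Fintype ι] [DecidableEq ι]
    (rel : ι → Word X) (h : Contractible rel) (R : Finset ι) :
    Contractible (oneCellPlus rel R) := by
  have hsub := plus_trivial rel R h.1
  refine ⟨hsub, ?_⟩
  set P := oneCellPlus rel R with hP
  intro z hz
  have hex : ∀ (x : X) (i : ι), (Contr.ex (some x) (FreeGroup.mk (P (some i)))).toAdd
      = (if i ∈ R then 1 else -1) * (Contr.ex x (FreeGroup.mk (rel i))).toAdd := by
    intro x i
    have h1 : P (some i) = oneCell rel R i := rfl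
    rw [h1]
    unfold oneCell
    split_ifs with hi
    · rw [ex_inc, one_mul]
    · rw [toAdd_bau, ex_inc]; ring
  have hexn : ∀ i : ι, (Contr.ex none (FreeGroup.mk (P (some i)))).toAdd = 0 := by
    intro i
    have h1 : P (some i) = oneCell rel R i := rfl
    rw [h1]
    unfold oneCell
    split_ifs with hi
    · rw [ex_inc_none]; rfl
    · rw [toAdd_bau, ex_inc_none]; rfl
  have hPn : P none = [(none, true)] := rfl
  -- the augmentation
  set ε := MonoidAlgebra.lift ℤ ℤ (Grp P) (1 : Grp P →* ℤ) with hε
  have h0 : z none = 0 := by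
    apply aug_inj
    have h1 := congrArg ε (hz none)
    rw [map_sum, Fintype.sum_option, map_zero] at h1
    simp only [Contr.fox_eq P hsub, map_mul, map_intCast, hexn, Int.cast_zero, mul_zero,
      Finset.sum_const_zero, add_zero, hPn, Contr.ex_true] at h1
    simpa using h1
  have h2 : (fun i : ι => ε (z (some i)) * (if i ∈ R then 1 else -1)) = 0 := by
    apply Contr.inj_int rel h
    intro x
    have h1 := congrArg ε (hz (some x))
    rw [map_sum, Fintype.sum_option, map_zero, h0, zero_mul, map_zero, zero_add] at h1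
    simp only [Contr.fox_eq P hsub, map_mul, map_intCast, hex] at h1
    rw [← h1]
    refine Finset.sum_congr rfl fun i _ => ?_
    push_cast
    ring
  funext y
  rcases y with _ | i
  · exact h0
  · apply aug_inj
    have h3 := congrFun h2 i
    simp only [Pi.zero_apply] at h3
    split_ifs at h3 with hi
    · simpa using h3
    · simpa using h3

theorem quot_trivial {X ι : Type} [DecidableEq ι] (rel : ι → Word X)
    (h : Subsingleton (Grp rel)) (R : Finset ι) {Q : Type} [Group Q]
    (hQ : Finite Q ∨ Group.IsSolvable Q) (φ : Grp (oneCell rel R) →* Q) (x : X) :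
    φ (val (oneCell rel R) [(some x, true)]) = 1 := by
  set θ : FreeGroup (Option X) →* Q := φ.comp (vF (oneCell rel R)) with hθ
  have hrel : ∀ i, θ (FreeGroup.mk (oneCell rel R i)) = 1 := by
    intro i
    rw [hθ, MonoidHom.comp_apply, vF_rel, map_one]
  set t : Q := θ (FreeGroup.of none)
  have hw : ∀ i, i ∉ R → (t * θ (FreeGroup.mk (inc (rel i))) * t⁻¹)⁻¹ *
      θ (FreeGroup.mk (inc (rel i))) * (t * θ (FreeGroup.mk (inc (rel i))) * t⁻¹)
      = θ (FreeGroup.mk (inc (rel i))) ^ 2 := by
    intro i hi
    have h1 := hrel i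
    unfold oneCell at h1
    rw [if_neg hi, hom_bau] at h1
    rw [mul_inv_eq_one, mul_inv_eq_iff_eq_mul] at h1
    rw [pow_two, ← h1]
    simp only [mul_inv_rev, inv_inv, mul_assoc]
    rfl
  have hkill : ∀ i, θ (FreeGroup.mk (inc (rel i))) = 1 := by
    intro i
    by_cases hi : i ∈ R
    · have h1 := hrel i
      unfold oneCell at h1
      rwa [if_pos hi] at h1
    · rcases hQ with hQ | hQ
      · exact Pool.Agent.WOne.finite_kill _ t (hw i hi)
      · refine Pool.Agent.WOne.solvable_kill
          {q | ∃ j, j ∉ R ∧ q = θ (FreeGroup.mk (inc (rel j)))} t ?_ _ ⟨i, hi, rfl⟩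
        rintro _ ⟨j, hj, rfl⟩
        exact hw j hj
  have h2 := hom_trivial rel h (θ.comp (FreeGroup.map some)) (fun i => by
    rw [MonoidHom.comp_apply, ← mk_inc]
    exact hkill i) (FreeGroup.of x)
  rw [MonoidHom.comp_apply, FreeGroup.map.of] at h2
  exact h2

end Pool.Agent.OC
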