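import Pool.Agent.ZO.Func
import Pool.Agent.ZO.Defs

/-!
# One missing 2-cell: transport of non-asphericity
-/

set_option autoImplicit false

open scoped BigOperators

namespace Pool.Agent.OC

open Pool.Agent.FoxAsph Pool.Agent.WT Pool.Agent.RelGap Pool.Agent.ZO

/-- If the relators of `rel` are among the relators of `rel'` (after the substitution `g` of the
generators) and the group of `rel` embeds in a group that the group of `rel'` maps to, then `rel'` is
not aspherical if `rel` is not. -/
theorem not_aspherical_of_injective {X Y ι κ : Type} [Fintype X] [Fintype ι] [Fintype κ]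
    (rel : ι → Word X) (rel' : κ → Word Y) (g : X → Y) (e : ι → κ) (he : Function.Injective e)
    (hrel : ∀ i, rel' (e i) = (rel i).map (Prod.map g id)) {H : Type} [Group H]
    (f : Grp rel →* H) (hf : Function.Injective f) (ψ : Y → H)
    (hψ : ∀ x, ψ (g x) = f (val rel [(x, true)]))
    (hψ' : ∀ k, FreeGroup.lift ψ (FreeGroup.mk (rel' k)) = 1)
    (hna : ¬ Aspherical rel) : ¬ Aspherical rel' := by
  classical
  intro hA
  refine hna fun z hz => ?_
  have hmk : ∀ i, FreeGroup.map g (FreeGroup.mk (rel i)) = FreeGroup.mk (rel' (e i)) := by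
    intro i
    rw [FreeGroup.map.mk, hrel i]
    rfl
  have hlift : ∀ w : FreeGroup X,
      FreeGroup.lift (fun x => (FreeGroup.of (g x) : FreeGroup Y)) w = FreeGroup.map g w := by
    intro w
    exact (DFunLike.congr_fun (FreeGroup.ext_hom (FreeGroup.map g)
      (FreeGroup.lift fun x => (FreeGroup.of (g x) : FreeGroup Y)) fun x => by
        rw [FreeGroup.lift_apply_of, FreeGroup.map.of]) w).symm
  obtain ⟨φ, hφ⟩ := exists_map (G := Grp rel') rel ((valF rel').comp (FreeGroup.map g)) (by
    intro i
    rw [MonoidHom.comp_apply, hmk]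
    exact val_rel rel' (e i))
  obtain ⟨Ψ, hΨ⟩ := exists_map (G := H) rel' (FreeGroup.lift ψ) hψ'
  have hcomp : ∀ a : Grp rel, Ψ (φ a) = f a := by
    have h1 : (Ψ.comp φ).comp (valF rel) = f.comp (valF rel) := by
      refine FreeGroup.ext_hom _ _ fun x => ?_
      rw [MonoidHom.comp_apply, MonoidHom.comp_apply, hφ, MonoidHom.comp_apply, hΨ,
        FreeGroup.map.of, FreeGroup.lift_apply_of, hψ x]
      rfl
    intro a
    obtain ⟨w, rfl⟩ : ∃ w, valF rel w = a := QuotientGroup.mk'_surjective _ a
    exact DFunLike.congr_fun h1 w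
  have hφi : Function.Injective φ := by
    intro a b hab
    exact hf (by rw [← hcomp a, ← hcomp b, hab])
  have hk := ker_transfer rel rel' φ (fun x => FreeGroup.of (g x)) (by
    intro x
    have h1 := hφ (FreeGroup.of x)
    rw [MonoidHom.comp_apply, FreeGroup.map.of] at h1
    exact h1) z hz
  have hk' : ∑ i, MonoidAlgebra.mapDomainRingHom ℤ φ (z i) •
      D rel' (FreeGroup.mk (rel' (e i))) = 0 := by
    rw [← hk]
    refine Finset.sum_congr rfl fun i _ => ?_
    rw [hlift, hmk]
  set z' : κ → MonoidAlgebra ℤ (Grp rel') :=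
    Function.extend e (fun i => MonoidAlgebra.mapDomainRingHom ℤ φ (z i)) 0 with hz'
  have hz1 : ∀ i, z' (e i) = MonoidAlgebra.mapDomainRingHom ℤ φ (z i) := by
    intro i
    rw [hz']
    exact he.extend_apply _ _ i
  have hsum : ∑ k, z' k • D rel' (FreeGroup.mk (rel' k)) = 0 := by
    rw [← hk']
    have h2 : ∑ k, z' k • D rel' (FreeGroup.mk (rel' k)) =
        ∑ k ∈ Finset.univ.map ⟨e, he⟩, z' k • D rel' (FreeGroup.mk (rel' k)) := by
      symm
      refine Finset.sum_subset (Finset.subset_univ _) fun k _ hk => ?_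
      have h3 : ¬ ∃ i, e i = k := by
        rintro ⟨i, rfl⟩
        exact hk (Finset.mem_map.2 ⟨i, Finset.mem_univ _, rfl⟩)
      rw [hz', Function.extend_apply' _ _ _ h3]
      simp
    rw [h2, Finset.sum_map]
    refine Finset.sum_congr rfl fun i _ => ?_
    show z' (e i) • _ = _
    rw [hz1]
    rfl
  have h0 := (aspherical_iff rel').1 hA z' hsum
  funext i
  have h4 : MonoidAlgebra.mapDomainRingHom ℤ φ (z i) = 0 := by
    rw [← hz1, h0]
    rfl
  have h5 : Function.Injective (MonoidAlgebra.mapDomainRingHom ℤ φ) :=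
    MonoidAlgebra.mapDomain_injective hφi
  exact h5 (h4.trans (map_zero (MonoidAlgebra.mapDomainRingHom ℤ φ)).symm)

/-- A subpresentation that is not aspherical stays so if all generators are added. -/
theorem full_of_sub {X ι : Type} [Fintype X] [Fintype ι] (rel : ι → Word X) (U : Set X)
    (S : Finset ι) (h : ∀ i ∈ S, ∀ l ∈ rel i, l.1 ∈ U)
    (hna : ¬ Aspherical (SubPres rel U S h)) : ¬ Aspherical (fun i : S => rel i) := by
  classical
  have hmap : ∀ i : S, rel i = (SubPres rel U S h i).map (Prod.map Subtype.val id) := by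
    intro i
    unfold SubPres
    rw [List.map_pmap]
    simp
  set ψ : X → Grp (SubPres rel U S h) := fun x =>
    if hx : x ∈ U then val (SubPres rel U S h) [(⟨x, hx⟩, true)] else 1 with hψ
  have hψU : ∀ x : U, ψ x = val (SubPres rel U S h) [(x, true)] := by
    intro x
    rw [hψ]
    simp only [Subtype.coe_prop, dif_pos]
  refine not_aspherical_of_injective (SubPres rel U S h) (fun i : S => rel i)
    (Subtype.val : U → X) (id : S → S) Function.injective_id hmap
    (MonoidHom.id (Grp (SubPres rel U S h))) Function.injective_id ψ (fun x => hψU x) ?_ hna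
  intro k
  have h1 : FreeGroup.mk (rel k) =
      FreeGroup.map (Subtype.val : U → X) (FreeGroup.mk (SubPres rel U S h k)) := by
    rw [FreeGroup.map.mk]
    exact congrArg FreeGroup.mk (hmap k)
  have h2 : (FreeGroup.lift ψ).comp (FreeGroup.map (Subtype.val : U → X)) =
      valF (SubPres rel U S h) := by
    refine FreeGroup.ext_hom _ _ fun x => ?_
    rw [MonoidHom.comp_apply, FreeGroup.map.of, FreeGroup.lift_apply_of, hψU]
    rfl
  show FreeGroup.lift ψ (FreeGroup.mk (rel k)) = 1
  rw [h1, ← MonoidHom.comp_apply, h2]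
  exact val_rel (SubPres rel U S h) k

end Pool.Agent.OC
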