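import Pool.Agent.OC.Free
import Pool.Agent.OC.Transport
import Pool.Agent.OC.Plus
import Pool.Agent.OC.Deform
import Pool.Agent.OC.Lot
import Pool.Agent.OC.Many
import Pool.Agent.WOne.Embed
import Pool.Agent.ZO.Law2

/-!
# One missing 2-cell: assembly
-/

set_option autoImplicit false

open scoped BigOperators

namespace Pool.Agent.OC

open Pool.Agent.FoxAsph Pool.Agent.WT Pool.Agent.RelGap Pool.Agent.ZO

variable {X ι : Type}

theorem oneCell_mem [DecidableEq ι] (rel : ι → Word X) (R : Finset ι) {i : ι} (hi : i ∈ R) :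
    oneCell rel R i = inc (rel i) := if_pos hi

theorem oneCell_not_mem [DecidableEq ι] (rel : ι → Word X) (R : Finset ι) {i : ι} (hi : i ∉ R) :
    oneCell rel R i = bau (rel i) := if_neg hi

/-- If a subcomplex `L` of a contractible complex is not aspherical, then the complex `K'` minus its
last 2-cell is not aspherical. -/
theorem not_aspherical_oneCell [Fintype X] [Fintype ι] [DecidableEq ι] (rel : ι → Word X)
    (hK : Contractible rel) (U : Set X) (R : Finset ι) (h : ∀ i ∈ R, ∀ l ∈ rel i, l.1 ∈ U)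
    (hna : ¬ Aspherical (SubPres rel U R h)) : ¬ Aspherical (oneCell rel R) := by
  have h1 := full_of_sub rel U R h hna
  set rel₀ : R → Word X := fun i => rel i with hrel₀
  have h2 := free_missing_contractible rel hK R
  obtain ⟨H, _, f, t, hf, ht⟩ := WOne.embed (fun j : {i : ι // i ∉ R} =>
      RelGap.valF rel₀ (FreeGroup.mk (rel j))) h2
  let ψ : Option X → H := fun o => o.elim t fun x => f (val rel₀ [(x, true)])
  have hψ : ∀ w : Word X, FreeGroup.lift ψ (FreeGroup.mk (inc w)) = f (RelGap.valF rel₀ (FreeGroup.mk w)) := by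
    intro w
    rw [mk_inc]
    have h3 : (FreeGroup.lift ψ).comp (FreeGroup.map (some : X → Option X)) =
        f.comp (RelGap.valF rel₀) := by
      apply FreeGroup.ext_hom
      intro x
      rw [MonoidHom.comp_apply, MonoidHom.comp_apply, FreeGroup.map.of, FreeGroup.lift_apply_of,
        of_val]
      rfl
    exact DFunLike.congr_fun h3 (FreeGroup.mk w)
  refine not_aspherical_of_injective rel₀ (oneCell rel R) some (Subtype.val : R → ι)
    Subtype.val_injective (fun i => ?_) f hf ψ (fun x => rfl) (fun k => ?_) h1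
  · rw [oneCell_mem rel R i.2]
    rfl
  · by_cases hk : k ∈ R
    · rw [oneCell_mem rel R hk, hψ]
      have h4 : RelGap.valF rel₀ (FreeGroup.mk (rel k)) = 1 := valF_rel rel₀ ⟨k, hk⟩
      rw [h4, map_one]
    · rw [oneCell_not_mem rel R hk, mk_bau]
      simp only [map_mul, map_inv, hψ, FreeGroup.lift_apply_of]
      have h5 := ht ⟨k, hk⟩
      have h6 : ψ none = t := rfl
      rw [h6]
      simp only at h5
      set a := f (RelGap.valF rel₀ (FreeGroup.mk (rel k))) with ha
      have h7 : t * a⁻¹ * t⁻¹ * a * t * a * t⁻¹ * a⁻¹ * a⁻¹ =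
          (t * a * t⁻¹)⁻¹ * a * (t * a * t⁻¹) * (a ^ 2)⁻¹ := by
        group
      rw [h7, h5, mul_inv_cancel]

/-- `A`: one missing 2-cell -/
theorem partA [Fintype X] [Fintype ι] [DecidableEq ι] (rel : ι → Word X)
    (hK : Contractible rel) (U : Set X) (R : Finset ι) (h : ∀ i ∈ R, ∀ l ∈ rel i, l.1 ∈ U)
    (hna : ¬ Aspherical (SubPres rel U R h)) :
    Contractible (oneCellPlus rel R) ∧ ¬ Aspherical (oneCell rel R) ∧
      (∀ (Q : Type) [Group Q], (Finite Q ∨ Group.IsSolvable Q) →
        ∀ (φ : Grp (oneCell rel R) →* Q) (x : X), φ (val (oneCell rel R) [(some x, true)]) = 1) ∧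
      (ACTrivial rel → ACTrivial (oneCellPlus rel R)) :=
  ⟨contractible_plus rel hK R, not_aspherical_oneCell rel hK U R h hna,
    fun _ _ hQ φ x => quot_trivial rel hK.1 R hQ φ x, fun hAC => ac_plus rel hAC R⟩

/-- `B` -/
theorem partB : (∀ (X ι : Type) [Fintype X] [Fintype ι] (rel : ι → Word X), ACTrivial rel →
      ∀ (U : Set X) (S : Finset ι) (h : ∀ i ∈ S, ∀ l ∈ rel i, l.1 ∈ U),
        Aspherical (SubPres rel U S h)) ↔
    ∀ (n : ℕ) (Γ : LOT (Fin n)), LotAspherical Γ := by
  refine ⟨lots_of_all, fun hall => ?_⟩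
  intro X ι _ _ rel hAC U S h
  by_contra hna
  obtain ⟨F, hF⟩ := howie rel hAC U S h hna
  obtain ⟨n, Γ, hΓ⟩ := lot_of_lof F hF
  exact hΓ (hall n Γ)

end Pool.Agent.OC
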