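import Pool.Agent.OC.TreeC
import Pool.Agent.OneCell.PingPong

/-!
# From labelled oriented forests to labelled oriented trees, and back
-/

set_option autoImplicit false

open scoped BigOperators

namespace Pool.Agent.OC

open Pool.Agent.FoxAsph Pool.Agent.WT Pool.Agent.ZO Pool.Agent.RelGap

/-- (version with the freeness of the missing cells as a hypothesis) -/
theorem lot_of_lof' (hfree : ∀ (F : LOF), Function.Injective
      (FreeGroup.lift fun j : JJ F => valF F.rel (FreeGroup.of (rp F j))))
    (F : LOF) (hF : ¬ Aspherical F.rel) :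
    ∃ (n : ℕ) (Γ : LOT (Fin n)), ¬ LotAspherical Γ := by
  classical
  refine lot_of_connected (join F) (join_connected F) fun h => hF ?_
  have : Countable (JJ F) := Finite.to_countable
  obtain ⟨t, ht1, ht2⟩ := OneCell.exists_braid_family (ι := JJ F)
  exact asph_of_join_of_free F (hfree F) ⟨_, inferInstance, OneCell.mB, t, ht2, ht1⟩ h

/-- If all subcomplexes of all complexes that 3-deform to a point are aspherical, so are the
complexes of labelled oriented trees. -/
theorem lots_of_all (h : ∀ (X ι : Type) [Fintype X] [Fintype ι] (rel : ι → Word X),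
      ACTrivial rel → ∀ (U : Set X) (S : Finset ι) (h : ∀ i ∈ S, ∀ l ∈ rel i, l.1 ∈ U),
      Aspherical (SubPres rel U S h)) (n : ℕ) (Γ : LOT (Fin n)) : LotAspherical Γ := by
  classical
  intro _
  obtain ⟨v⟩ := Γ.isTree.connected.nonempty
  have hU : ∀ i ∈ (Finset.univ.filter fun i : Option Γ.graph.edgeSet => i ≠ none),
      ∀ l ∈ Γ.relPlus v i, l.1 ∈ (Set.univ : Set (Fin n)) := fun _ _ _ _ => Set.mem_univ _
  have h1 := h (Fin n) (Option Γ.graph.edgeSet) (Γ.relPlus v) (lot_acTrivial Γ v) Set.univ
    (Finset.univ.filter fun i => i ≠ none) hU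
  set S := Finset.univ.filter fun i : Option Γ.graph.edgeSet => i ≠ none with hS
  set rel' := SubPres (Γ.relPlus v) Set.univ S hU with hrel'
  let ε : Γ.graph.edgeSet → S := fun e => ⟨some e, Finset.mem_filter.2 ⟨Finset.mem_univ _, by simp⟩⟩
  have hrel : ∀ e, rel' (ε e) = [((⟨Γ.tail e, Set.mem_univ _⟩ : (Set.univ : Set (Fin n))), true),
      (⟨Γ.label e, Set.mem_univ _⟩, true), (⟨Γ.head e, Set.mem_univ _⟩, false),
      (⟨Γ.label e, Set.mem_univ _⟩, false)] := fun e => rfl
  have hrel0 : ∀ e, Γ.rel e = [(Γ.tail e, true), (Γ.label e, true), (Γ.head e, false),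
      (Γ.label e, false)] := fun e => rfl
  obtain ⟨φ, hφ⟩ := exists_map Γ.rel (G := Grp rel')
    (FreeGroup.lift fun x => valF rel' (FreeGroup.of (⟨x, Set.mem_univ _⟩ : (Set.univ : Set (Fin n)))))
    (by
      intro e
      have h2 := lift_valF' rel' (FreeGroup.mk (rel' (ε e)))
      rw [valF_rel, hrel, lift_word4] at h2
      rw [hrel0, lift_word4]
      exact h2)
  obtain ⟨ψ, hψ⟩ := exists_map rel' (G := Grp Γ.rel)
    (FreeGroup.lift fun y => valF Γ.rel (FreeGroup.of y.1)) (by
      intro i
      obtain ⟨e, rfl⟩ : ∃ e, ε e = i := by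
        obtain ⟨i, hi⟩ := i
        have hi' := (Finset.mem_filter.1 hi).2
        obtain ⟨e, he⟩ := Option.ne_none_iff_exists'.1 hi'
        exact ⟨e, Subtype.ext he.symm⟩
      have h2 := lift_valF' Γ.rel (FreeGroup.mk (Γ.rel e))
      rw [valF_rel, hrel0, lift_word4] at h2
      rw [hrel, lift_word4]
      exact h2)
  have hinj : Function.Injective φ := by
    have h2 : ψ.comp φ = MonoidHom.id _ := by
      have h3 : (ψ.comp φ).comp (PresentedGroup.mk (Set.range fun i => FreeGroup.mk (Γ.rel i))) =
          (MonoidHom.id _).comp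
            (PresentedGroup.mk (Set.range fun i => FreeGroup.mk (Γ.rel i))) := by
        refine FreeGroup.ext_hom _ _ fun x => ?_
        show ψ (φ (valF Γ.rel (FreeGroup.of x))) = valF Γ.rel (FreeGroup.of x)
        rw [hφ, FreeGroup.lift_apply_of, hψ, FreeGroup.lift_apply_of]
      refine MonoidHom.ext fun g => ?_
      obtain ⟨w, rfl⟩ := QuotientGroup.mk_surjective g
      exact DFunLike.congr_fun h3 w
    intro a b hab
    have h3 := DFunLike.congr_fun h2 a
    have h4 := DFunLike.congr_fun h2 b
    rw [MonoidHom.comp_apply, hab] at h3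
    rw [MonoidHom.comp_apply] at h4
    rw [h3] at h4
    exact h4
  refine asph_of_inj Γ.rel rel' φ hinj
    (fun x => FreeGroup.of (⟨x, Set.mem_univ _⟩ : (Set.univ : Set (Fin n))))
    (fun x => ?_) ε ?_ (fun e => ?_) ?_
  · rw [← of_val, hφ, FreeGroup.lift_apply_of]
  · intro e e' hee
    exact Option.some_injective _ (congrArg Subtype.val hee)
  · rw [hrel]
    rfl
  · exact h1

end Pool.Agent.OC
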