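import Pool.Agent.ZO.Tour
import Pool.Agent.ZO.Func

/-!
# From labelled oriented forests to labelled oriented trees: the graphs
-/

set_option autoImplicit false

open scoped BigOperators

namespace Pool.Agent.OC

open Pool.Agent.FoxAsph Pool.Agent.WT Pool.Agent.ZO

/-- the underlying graph of a labelled oriented forest -/
def gr (F : LOF) : SimpleGraph F.V :=
  SimpleGraph.fromRel (fun a b => ∃ e, F.tail e = a ∧ F.head e = b)

theorem tail_ne_head (F : LOF) (e : F.E) : F.tail e ≠ F.head e := by
  obtain ⟨χ, h, _⟩ := F.forest e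
  intro h2
  rw [h2] at h
  omega

theorem gr_adj (F : LOF) (e : F.E) : (gr F).Adj (F.tail e) (F.head e) := by
  unfold gr
  rw [SimpleGraph.fromRel_adj]
  exact ⟨tail_ne_head F e, Or.inl ⟨e, rfl, rfl⟩⟩

theorem exists_edge (F : LOF) {a b : F.V} (h : (gr F).Adj a b) :
    ∃ e, s(F.tail e, F.head e) = s(a, b) := by
  unfold gr at h
  rw [SimpleGraph.fromRel_adj] at h
  rcases h with ⟨_, ⟨e, h1, h2⟩ | ⟨e, h1, h2⟩⟩
  · exact ⟨e, by rw [h1, h2]⟩
  · exact ⟨e, by rw [h1, h2, Sym2.eq_swap]⟩

theorem edge_inj (F : LOF) {e e' : F.E} (h : s(F.tail e, F.head e) = s(F.tail e', F.head e')) :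
    e = e' := by
  by_contra hne
  obtain ⟨χ, h1, h2⟩ := F.forest e
  have h3 := h2 e' (Ne.symm hne)
  rw [Sym2.eq_iff] at h
  rcases h with ⟨h4, h5⟩ | ⟨h4, h5⟩
  · rw [h4, h5] at h1
    omega
  · rw [h4, h5] at h1
    omega

/-- functions that are constant along the edges are constant on components -/
theorem const_of_reachable (F : LOF) {α : Type} (f : F.V → α) (hf : ∀ e, f (F.tail e) = f (F.head e))
    {a b : F.V} (h : (gr F).Reachable a b) : f a = f b := by
  obtain ⟨w⟩ := h
  induction w with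
  | nil => rfl
  | cons hadj _ ih =>
    rw [← ih]
    obtain ⟨e, he⟩ := exists_edge F hadj
    rw [Sym2.eq_iff] at he
    rcases he with ⟨h1, h2⟩ | ⟨h1, h2⟩
    · rw [← h1, ← h2, hf]
    · rw [← h1, ← h2, hf]

theorem acyclic (F : LOF) : (gr F).IsAcyclic := by
  rw [SimpleGraph.isAcyclic_iff_forall_adj_isBridge]
  intro a b hab
  rw [SimpleGraph.isBridge_iff]
  intro hr
  obtain ⟨e, he⟩ := exists_edge F hab
  obtain ⟨χ, h1, h2⟩ := F.forest e
  have h3 : ∀ {c d : F.V}, ((gr F).deleteEdges {s(a, b)}).Reachable c d → χ c = χ d := by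
    intro c d hcd
    obtain ⟨w⟩ := hcd
    induction w with
    | nil => rfl
    | cons hadj _ ih =>
      rw [← ih]
      rw [SimpleGraph.deleteEdges_adj] at hadj
      obtain ⟨e', he'⟩ := exists_edge F hadj.1
      have hne : e' ≠ e := by
        rintro rfl
        apply hadj.2
        rw [Set.mem_singleton_iff, ← he', ← he]
      have h4 := h2 e' hne
      rw [Sym2.eq_iff] at he'
      rcases he' with ⟨h5, h6⟩ | ⟨h5, h6⟩
      · rw [← h5, ← h6, h4]
      · rw [← h5, ← h6, h4]
  have h4 := h3 hr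
  rw [Sym2.eq_iff] at he
  rcases he with ⟨h5, h6⟩ | ⟨h5, h6⟩
  · rw [h5, h6] at h1
    omega
  · rw [h5, h6] at h1
    omega

/-- the edges of the graph -/
noncomputable def edgeEquiv (F : LOF) : F.E ≃ (gr F).edgeSet :=
  Equiv.ofBijective (fun e => ⟨s(F.tail e, F.head e), gr_adj F e⟩) (by
    constructor
    · intro e e' h
      exact edge_inj F (congrArg Subtype.val h)
    · rintro ⟨s, hs⟩
      induction s using Sym2.ind with
      | _ a b =>
        obtain ⟨e, he⟩ := exists_edge F (by simpa using hs)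
        exact ⟨e, Subtype.ext he⟩)

theorem edgeEquiv_coe (F : LOF) (e : F.E) :
    ((edgeEquiv F e : (gr F).edgeSet) : Sym2 F.V) = s(F.tail e, F.head e) := rfl

/-- a connected labelled oriented forest is a labelled oriented tree -/
noncomputable def toLOT (F : LOF) (h : (gr F).Connected) : LOT F.V where
  graph := gr F
  isTree := ⟨h, acyclic F⟩
  tail := fun e => F.tail ((edgeEquiv F).symm e)
  head := fun e => F.head ((edgeEquiv F).symm e)
  ends := fun e => by
    rw [← edgeEquiv_coe, Equiv.apply_symm_apply]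
  label := fun e => F.label ((edgeEquiv F).symm e)

theorem toLOT_rel (F : LOF) (h : (gr F).Connected) (e : (gr F).edgeSet) :
    (toLOT F h).rel e = F.rel ((edgeEquiv F).symm e) := rfl

/-- relabelling the vertices -/
noncomputable def relab (F : LOF) {V' : Type} [Fintype V'] (σ : F.V ≃ V') : LOF where
  V := V'
  E := F.E
  fV := inferInstance
  fE := inferInstance
  tail := fun e => σ (F.tail e)
  head := fun e => σ (F.head e)
  label := fun e => σ (F.label e)
  forest := fun e => by
    obtain ⟨χ, h1, h2⟩ := F.forest e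
    refine ⟨fun y => χ (σ.symm y), ?_, fun e' he' => ?_⟩
    · simpa using h1
    · simpa using h2 e' he'

theorem relab_connected (F : LOF) {V' : Type} [Fintype V'] (σ : F.V ≃ V')
    (h : (gr F).Connected) : (gr (relab F σ)).Connected := by
  have hadj : ∀ {a b : F.V}, (gr F).Adj a b → (gr (relab F σ)).Adj (σ a) (σ b) := by
    intro a b hab
    obtain ⟨e, he⟩ := exists_edge F hab
    have h2 : (gr (relab F σ)).Adj (σ (F.tail e)) (σ (F.head e)) := gr_adj (relab F σ) e
    rw [Sym2.eq_iff] at he
    rcases he with ⟨h3, h4⟩ | ⟨h3, h4⟩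
    · rw [← h3, ← h4]; exact h2
    · rw [← h3, ← h4]; exact h2.symm
  have hreach : ∀ {a b : F.V}, (gr F).Reachable a b →
      (gr (relab F σ)).Reachable (σ a) (σ b) := by
    intro a b hab
    obtain ⟨w⟩ := hab
    induction w with
    | nil => exact SimpleGraph.Reachable.refl _
    | cons h _ ih => exact (hadj h).reachable.trans ih
  obtain ⟨x⟩ := h.nonempty
  have : Nonempty (relab F σ).V := ⟨σ x⟩
  refine ⟨fun y y' => ?_⟩
  have h1 := hreach (h.preconnected (σ.symm y) (σ.symm y'))
  rwa [Equiv.apply_symm_apply, Equiv.apply_symm_apply] at h1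

end Pool.Agent.OC
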