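import Pool.Agent.OC.TreeA
import Pool.Agent.OC.Nil

/-!
# Joining the components of a labelled oriented forest

New vertices `m` and `c_j`, one for every component `j` with the chosen vertex `x_j`; new edges
`m → c_j` with the label `x_j` and `c_j → x_j` with the label `m`.
-/

set_option autoImplicit false

open scoped BigOperators

namespace Pool.Agent.OC

open Pool.Agent.FoxAsph Pool.Agent.WT Pool.Agent.ZO

/-- the components -/
abbrev JJ (F : LOF) : Type := (gr F).ConnectedComponent

noncomputable instance (F : LOF) : Fintype (JJ F) := by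
  classical
  exact Fintype.ofFinite _

/-- the component of a vertex -/
def cmp (F : LOF) (x : F.V) : JJ F := (gr F).connectedComponentMk x

/-- the chosen vertex of a component -/
noncomputable def rp (F : LOF) (j : JJ F) : F.V := Quot.out j

theorem cmp_rp (F : LOF) (j : JJ F) : cmp F (rp F j) = j := Quot.out_eq j

theorem cmp_edge (F : LOF) (e : F.E) : cmp F (F.tail e) = cmp F (F.head e) :=
  SimpleGraph.ConnectedComponent.sound (gr_adj F e).reachable

theorem reach_rp (F : LOF) (x : F.V) : (gr F).Reachable x (rp F (cmp F x)) :=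
  SimpleGraph.ConnectedComponent.exact (cmp_rp F (cmp F x)).symm

theorem rp_injective (F : LOF) : Function.Injective (rp F) := by
  intro j j' h
  rw [← cmp_rp F j, h, cmp_rp]

/-- a function with difference 1 along `e`, 0 along the other edges, and 0 at the chosen vertices -/
theorem exists_chi (F : LOF) (e : F.E) : ∃ χ : F.V → ℤ, (χ (F.head e) - χ (F.tail e) = 1) ∧
    (∀ e', e' ≠ e → χ (F.head e') = χ (F.tail e')) ∧ ∀ j, χ (rp F j) = 0 := by
  obtain ⟨χ, h1, h2⟩ := F.forest e
  refine ⟨fun x => χ x - χ (rp F (cmp F x)), ?_, ?_, ?_⟩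
  · show χ _ - χ (rp F (cmp F (F.head e))) - (χ _ - χ (rp F (cmp F (F.tail e)))) = 1
    rw [cmp_edge F e]
    omega
  · intro e' he'
    show χ _ - χ (rp F (cmp F (F.head e'))) = χ _ - χ (rp F (cmp F (F.tail e')))
    rw [cmp_edge F e', h2 e' he']
  · intro j
    show χ _ - χ (rp F (cmp F (rp F j))) = 0
    rw [cmp_rp, sub_self]

/-- the vertices of the tree: `inl x`, `inr none = m`, `inr (some j) = c_j` -/
abbrev TV (F : LOF) : Type := F.V ⊕ Option (JJ F)

/-- the edges of the tree: `inl e`, `inr (inl j) : m → c_j`, `inr (inr j) : c_j → x_j` -/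
abbrev TE (F : LOF) : Type := F.E ⊕ (JJ F ⊕ JJ F)

/-- the labelled oriented tree -/
noncomputable def join (F : LOF) : LOF where
  V := TV F
  E := TE F
  fV := inferInstance
  fE := inferInstance
  tail := Sum.elim (fun e => Sum.inl (F.tail e))
    (Sum.elim (fun _ => Sum.inr none) (fun j => Sum.inr (some j)))
  head := Sum.elim (fun e => Sum.inl (F.head e))
    (Sum.elim (fun j => Sum.inr (some j)) (fun j => Sum.inl (rp F j)))
  label := Sum.elim (fun e => Sum.inl (F.label e))
    (Sum.elim (fun j => Sum.inl (rp F j)) (fun _ => Sum.inr none))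
  forest := by
    classical
    rintro (e | j | j)
    · obtain ⟨χ, h1, h2, h3⟩ := exists_chi F e
      refine ⟨Sum.elim χ (fun _ => 0), h1, ?_⟩
      rintro (e' | j' | j') hne
      · exact h2 e' (fun h => hne (by rw [h]))
      · rfl
      · exact h3 j'
    · refine ⟨Sum.elim (fun x => if cmp F x = j then 1 else 0)
        (fun o => if o = some j then 1 else 0), ?_, ?_⟩
      · show (if some j = some j then (1 : ℤ) else 0) - (if none = some j then (1 : ℤ) else 0) = 1
        rw [if_pos rfl, if_neg (by simp)]
        norm_num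
      · rintro (e' | j' | j') hne
        · show (if cmp F (F.head e') = j then (1 : ℤ) else 0) =
            if cmp F (F.tail e') = j then (1 : ℤ) else 0
          rw [cmp_edge F e']
        · show (if some j' = some j then (1 : ℤ) else 0) = if none = some j then (1 : ℤ) else 0
          have : j' ≠ j := fun h => hne (by rw [h])
          rw [if_neg (by simpa using this), if_neg (by simp)]
        · show (if cmp F (rp F j') = j then (1 : ℤ) else 0) =
            if some j' = some j then (1 : ℤ) else 0
          rw [cmp_rp]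
          by_cases h : j' = j
          · rw [if_pos h, if_pos (by rw [h])]
          · rw [if_neg h, if_neg (by simpa using h)]
    · refine ⟨Sum.elim (fun x => if cmp F x = j then 1 else 0) (fun _ => 0), ?_, ?_⟩
      · show (if cmp F (rp F j) = j then (1 : ℤ) else 0) - 0 = 1
        rw [cmp_rp, if_pos rfl, sub_zero]
      · rintro (e' | j' | j') hne
        · show (if cmp F (F.head e') = j then (1 : ℤ) else 0) =
            if cmp F (F.tail e') = j then (1 : ℤ) else 0
          rw [cmp_edge F e']
        · rfl
        · show (if cmp F (rp F j') = j then (1 : ℤ) else 0) = 0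
          have : j' ≠ j := fun h => hne (by rw [h])
          rw [cmp_rp, if_neg this]

theorem join_connected (F : LOF) : (gr (join F)).Connected := by
  have hm : ∀ j : JJ F, (gr (join F)).Adj (Sum.inr none : TV F) (Sum.inr (some j) : TV F) :=
    fun j => gr_adj (join F) (Sum.inr (Sum.inl j) : TE F)
  have hc : ∀ j : JJ F, (gr (join F)).Adj (Sum.inr (some j) : TV F) (Sum.inl (rp F j) : TV F) :=
    fun j => gr_adj (join F) (Sum.inr (Sum.inr j) : TE F)
  have hadj : ∀ {a b : F.V}, (gr F).Adj a b → (gr (join F)).Adj (Sum.inl a : TV F)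
      (Sum.inl b : TV F) := by
    intro a b hab
    obtain ⟨e, he⟩ := exists_edge F hab
    have h1 := gr_adj (join F) (Sum.inl e : TE F)
    have h2 : (gr (join F)).Adj (Sum.inl (F.tail e) : TV F) (Sum.inl (F.head e) : TV F) := h1
    rw [Sym2.eq_iff] at he
    rcases he with ⟨h3, h4⟩ | ⟨h3, h4⟩
    · rw [← h3, ← h4]; exact h2
    · rw [← h3, ← h4]; exact h2.symm
  have hreach : ∀ {a b : F.V}, (gr F).Reachable a b → (gr (join F)).Reachable (Sum.inl a : TV F)
      (Sum.inl b : TV F) := by
    intro a b hab
    obtain ⟨w⟩ := hab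
    induction w with
    | nil => exact SimpleGraph.Reachable.refl _
    | cons h _ ih => exact (hadj h).reachable.trans ih
  have hall : ∀ x : TV F, (gr (join F)).Reachable x (Sum.inr none : TV F) := by
    rintro (x | _ | j)
    · exact (hreach (reach_rp F x)).trans
        (((hc (cmp F x)).symm.reachable).trans ((hm (cmp F x)).symm.reachable))
    · exact SimpleGraph.Reachable.refl _
    · exact (hm j).symm.reachable
  have : Nonempty (join F).V := ⟨(Sum.inr none : TV F)⟩
  exact ⟨fun x y => (hall x).trans (hall y).symm⟩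

/-- every linear system with the rows `tail e - head e` and `x_j` is solvable over `ℤ` -/
theorem solve (F : LOF) {A : Type} [AddCommGroup A] (b : F.E → A) (c : JJ F → A) :
    ∃ a : F.V → A, (∀ e, a (F.tail e) - a (F.head e) = b e) ∧ ∀ j, a (rp F j) = c j := by
  classical
  choose χ h1 h2 h3 using exists_chi F
  refine ⟨fun x => (∑ e, (-(χ e x)) • b e) + c (cmp F x), fun e => ?_, fun j => ?_⟩
  · show (∑ e', (-(χ e' (F.tail e))) • b e') + c (cmp F (F.tail e)) -
      ((∑ e', (-(χ e' (F.head e))) • b e') + c (cmp F (F.head e))) = b e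
    rw [cmp_edge F e, add_sub_add_right_eq_sub, ← Finset.sum_sub_distrib,
      Finset.sum_eq_single e]
    · rw [← sub_smul]
      have h4 := h1 e
      have h5 : -χ e (F.tail e) - -χ e (F.head e) = 1 := by omega
      rw [h5, one_smul]
    · intro e' _ hne
      rw [h2 e' e (Ne.symm hne), sub_self]
    · intro h
      exact absurd (Finset.mem_univ _) h
  · show (∑ e', (-(χ e' (rp F j))) • b e') + c (cmp F (rp F j)) = c j
    rw [cmp_rp, Finset.sum_eq_zero, zero_add]
    intro e _
    rw [h3 e j, neg_zero, zero_smul]

/-- the solution is unique -/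
theorem solve_unique (F : LOF) {A : Type} [AddCommGroup A] (a : F.V → A)
    (h1 : ∀ e, a (F.tail e) = a (F.head e)) (h2 : ∀ j, a (rp F j) = 0) : a = 0 := by
  funext x
  rw [const_of_reachable F a h1 (reach_rp F x), h2]
  rfl

theorem lift_word4 {X G : Type} [Group G] (Θ : X → G) (a b c d : X) :
    FreeGroup.lift Θ (FreeGroup.mk [(a, true), (b, true), (c, false), (d, false)]) =
      Θ a * Θ b * (Θ c)⁻¹ * (Θ d)⁻¹ := by
  rw [lift_cons, lift_cons, lift_cons, lift_cons, lift_nil]
  simp only [if_true, Bool.false_eq_true, if_false, mul_one, mul_assoc]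

theorem solv_forest (F : LOF) : Solv (Sum.elim (fun e : F.E => FreeGroup.mk (F.rel e))
    (fun j : JJ F => FreeGroup.of (rp F j))) := by
  intro A _ n
  obtain ⟨a, h1, h2⟩ := solve F (fun e => n (Sum.inl e)) (fun j => n (Sum.inr j))
  refine ⟨FreeGroup.lift fun x => Multiplicative.ofAdd (a x), ?_⟩
  rintro (e | j)
  · have h3 : F.rel e = [(F.tail e, true), (F.label e, true), (F.head e, false),
      (F.label e, false)] := rfl
    rw [Sum.elim_inl, h3, lift_word4, ← h1 e]
    simp only [← ofAdd_add, ← ofAdd_neg, toAdd_ofAdd]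
    abel
  · rw [Sum.elim_inr, FreeGroup.lift_apply_of]
    exact h2 j

end Pool.Agent.OC
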