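import Pool.Agent.OC.TreeB
import Pool.Agent.OC.Defs

/-!
# The group of a labelled oriented forest embeds in the group of the tree
-/

set_option autoImplicit false

open scoped BigOperators

namespace Pool.Agent.OC

open Pool.Agent.FoxAsph Pool.Agent.WT Pool.Agent.ZO Pool.Agent.RelGap

/-- amalgamated product: two injective homomorphisms of a group `H` have a common extension -/
theorem amalgam_t {H A B : Type} [Group H] [Group A] [Group B] (f : H →* A) (g : H →* B)
    (hf : Function.Injective f) (hg : Function.Injective g) :
    ∃ (P : Type) (_ : Group P) (i : A →* P) (j : B →* P),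
      Function.Injective i ∧ Function.Injective j ∧ ∀ h, i (f h) = j (g h) := by
  let G : Bool → Type := fun b => cond b B A
  let ins : ∀ b, Group (G b) := fun b => match b with
    | false => (inferInstance : Group A)
    | true => (inferInstance : Group B)
  let φ : ∀ b, H →* G b := fun b => match b with
    | false => f
    | true => g
  have hφ : ∀ b, Function.Injective (φ b) := by
    rintro (_ | _)
    · exact hf
    · exact hg
  refine ⟨Monoid.PushoutI φ, inferInstance, (Monoid.PushoutI.of (φ := φ) false : G false →* _),
    (Monoid.PushoutI.of (φ := φ) true : G true →* _), Monoid.PushoutI.of_injective hφ false,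
    Monoid.PushoutI.of_injective hφ true, fun h => ?_⟩
  have h1 := Monoid.PushoutI.of_apply_eq_base φ false h
  have h2 := Monoid.PushoutI.of_apply_eq_base φ true h
  exact h1.trans h2.symm

theorem lift_valF' {X ι : Type} (rel : ι → Word X) (g : FreeGroup X) :
    FreeGroup.lift (fun x => valF rel (FreeGroup.of x)) g = valF rel g := by
  have h : FreeGroup.lift (fun x => valF rel (FreeGroup.of x)) = valF rel :=
    FreeGroup.ext_hom _ _ fun x => by rw [FreeGroup.lift_apply_of]
  exact DFunLike.congr_fun h g

/-- Transport of asphericity along an embedding of the groups. -/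
theorem asph_of_inj {X Y ι κ : Type} [Fintype X] [Fintype ι] [Fintype κ] (rel : ι → Word X)
    (rel' : κ → Word Y) (φ : Grp rel →* Grp rel') (hφ : Function.Injective φ)
    (f : X → FreeGroup Y) (hf : ∀ x, φ (val rel [(x, true)]) = valF rel' (f x)) (j : ι → κ)
    (hj : Function.Injective j)
    (hr : ∀ i, FreeGroup.lift f (FreeGroup.mk (rel i)) = FreeGroup.mk (rel' (j i)))
    (h : Aspherical rel') : Aspherical rel := by
  classical
  intro z hz
  have h1 := ker_transfer rel rel' φ f hf z hz
  have h2 := (aspherical_iff rel').1 h
    (fun k => ∑ i, if j i = k then MonoidAlgebra.mapDomainRingHom ℤ φ (z i) else 0) (by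
      have e1 : ∀ k, (∑ i, if j i = k then MonoidAlgebra.mapDomainRingHom ℤ φ (z i) else 0) •
          D rel' (FreeGroup.mk (rel' k)) = ∑ i, if j i = k then
            MonoidAlgebra.mapDomainRingHom ℤ φ (z i) • D rel' (FreeGroup.mk (rel' (j i))) else 0 := by
        intro k
        rw [Finset.sum_smul]
        refine Finset.sum_congr rfl fun i _ => ?_
        split_ifs with hk
        · rw [hk]
        · rw [zero_smul]
      rw [Finset.sum_congr rfl fun k _ => e1 k, Finset.sum_comm]
      refine Eq.trans ?_ h1
      refine Finset.sum_congr rfl fun i _ => ?_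
      rw [Finset.sum_ite_eq, if_pos (Finset.mem_univ _), hr])
  funext i
  have h3 := congrFun h2 (j i)
  simp only [Pi.zero_apply] at h3
  rw [Finset.sum_eq_single i] at h3
  · rw [if_pos rfl] at h3
    have hinj : Function.Injective (MonoidAlgebra.mapDomainRingHom ℤ φ) :=
      fun a b hab => MonoidAlgebra.mapDomain_injective hφ hab
    exact hinj (h3.trans (map_zero _).symm)
  · intro i' _ hne
    rw [if_neg (fun h => hne (hj h))]
  · intro h
    exact absurd (Finset.mem_univ _) h

section

variable (F : LOF)

/-- the images of the generators of the tree -/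
noncomputable def img {P : Type} [Group P] (i : Grp F.rel →* P) (m : P) : TV F → P :=
  Sum.elim (fun x => i (val F.rel [(x, true)]))
    (fun o => Option.elim o m (fun j => (i (val F.rel [(rp F j, true)]))⁻¹ * m *
      i (val F.rel [(rp F j, true)])))

theorem rel_inl (e : F.E) : (join F).rel (Sum.inl e : TE F) =
    [((Sum.inl (F.tail e) : TV F), true), (Sum.inl (F.label e), true),
      (Sum.inl (F.head e), false), (Sum.inl (F.label e), false)] := rfl

theorem join_rel_one {P : Type} [Group P] (i : Grp F.rel →* P) (m : P)
    (hm : ∀ j, m * i (val F.rel [(rp F j, true)]) * m =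
      i (val F.rel [(rp F j, true)]) * m * i (val F.rel [(rp F j, true)])) (e : TE F) :
    FreeGroup.lift (img F i m) (FreeGroup.mk ((join F).rel e)) = 1 := by
  rcases e with e | j | j
  · have h1 : i (val F.rel (F.rel e)) = 1 := by rw [val_rel, map_one]
    have h2 : val F.rel (F.rel e) = FreeGroup.lift (fun x => val F.rel [(x, true)])
        (FreeGroup.mk (F.rel e)) := (lift_valF' F.rel (FreeGroup.mk (F.rel e))).symm
    rw [h2] at h1
    have h3 : F.rel e = [(F.tail e, true), (F.label e, true), (F.head e, false),
      (F.label e, false)] := rfl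
    rw [h3, lift_word4, map_mul, map_mul, map_mul, map_inv, map_inv] at h1
    rw [rel_inl, lift_word4]
    exact h1
  · have h3 : (join F).rel (Sum.inr (Sum.inl j) : TE F) = [((Sum.inr none : TV F), true),
      (Sum.inl (rp F j), true), (Sum.inr (some j), false), (Sum.inl (rp F j), false)] := rfl
    rw [h3, lift_word4]
    show m * i (val F.rel [(rp F j, true)]) * ((i (val F.rel [(rp F j, true)]))⁻¹ * m *
      i (val F.rel [(rp F j, true)]))⁻¹ * (i (val F.rel [(rp F j, true)]))⁻¹ = 1
    group
  · have h3 : (join F).rel (Sum.inr (Sum.inr j) : TE F) = [((Sum.inr (some j) : TV F), true),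
      (Sum.inr none, true), (Sum.inl (rp F j), false), (Sum.inr none, false)] := rfl
    rw [h3, lift_word4]
    show (i (val F.rel [(rp F j, true)]))⁻¹ * m * i (val F.rel [(rp F j, true)]) * m *
      (i (val F.rel [(rp F j, true)]))⁻¹ * m⁻¹ = 1
    have h4 := hm j
    generalize i (val F.rel [(rp F j, true)]) = a at h4 ⊢
    have h5 : a⁻¹ * m * a * m = m * a := by
      rw [mul_assoc, mul_assoc, ← mul_assoc m a m, h4]
      group
    rw [h5]
    group

/-- If the group of the forest embeds in a group with an element `m` which satisfies the braid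
relation with the chosen vertices, and the joined forest is aspherical, so is the forest. -/
theorem asph_of_join {P : Type} [Group P] (i : Grp F.rel →* P) (hi : Function.Injective i) (m : P)
    (hm : ∀ j, m * i (val F.rel [(rp F j, true)]) * m =
      i (val F.rel [(rp F j, true)]) * m * i (val F.rel [(rp F j, true)]))
    (h : Aspherical (join F).rel) : Aspherical F.rel := by
  classical
  -- the homomorphism from the group of the forest
  obtain ⟨φ, hφ⟩ := exists_map F.rel (G := Grp (join F).rel)
    (FreeGroup.lift fun x => valF (join F).rel (FreeGroup.of (Sum.inl x : TV F))) (by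
      intro e
      have h2' := lift_valF' (join F).rel (FreeGroup.mk ((join F).rel (Sum.inl e : TE F)))
      rw [valF_rel] at h2'
      have h2 : FreeGroup.lift (fun x : TV F => valF (join F).rel (FreeGroup.of x))
          (FreeGroup.mk [((Sum.inl (F.tail e) : TV F), true), (Sum.inl (F.label e), true),
            (Sum.inl (F.head e), false), (Sum.inl (F.label e), false)]) = 1 := h2'
      rw [lift_word4] at h2
      have h3 : F.rel e = [(F.tail e, true), (F.label e, true), (F.head e, false),
        (F.label e, false)] := rfl
      rw [h3, lift_word4]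
      exact h2)
  -- the homomorphism to `P`
  obtain ⟨ψ, hψ⟩ := exists_map (join F).rel (G := P) (FreeGroup.lift (img F i m))
    (fun e => join_rel_one F i m hm e)
  have hcomp : ∀ g, ψ (φ g) = i g := by
    intro g
    obtain ⟨w, rfl⟩ := QuotientGroup.mk_surjective g
    have h2 : (ψ.comp φ).comp (PresentedGroup.mk (Set.range fun i => FreeGroup.mk (F.rel i))) =
        i.comp (PresentedGroup.mk (Set.range fun i => FreeGroup.mk (F.rel i))) := by
      refine FreeGroup.ext_hom _ _ fun x => ?_
      show ψ (φ (valF F.rel (FreeGroup.of x))) = i (valF F.rel (FreeGroup.of x))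
      rw [hφ, FreeGroup.lift_apply_of, hψ, FreeGroup.lift_apply_of]
      rfl
    exact DFunLike.congr_fun h2 w
  have hinj : Function.Injective φ := by
    intro a b hab
    exact hi (by rw [← hcomp a, ← hcomp b, hab])
  refine asph_of_inj F.rel (join F).rel φ hinj (fun x => FreeGroup.of (Sum.inl x : TV F))
    (fun x => ?_) (fun e => (Sum.inl e : TE F)) Sum.inl_injective (fun e => rfl) h
  rw [← of_val, hφ, FreeGroup.lift_apply_of]

/-- The chosen vertices are free in the group of the forest, and so is a family in a group with
an element `m` as in `SL_2(ℤ)`: if the joined forest is aspherical, so is the forest. -/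
theorem asph_of_join_of_free
    (hfree : Function.Injective (FreeGroup.lift fun j : JJ F => val F.rel [(rp F j, true)]))
    (hSL : ∃ (S : Type) (_ : Group S) (m : S) (T : JJ F → S),
      Function.Injective (FreeGroup.lift T) ∧ ∀ j, m * T j * m = T j * m * T j)
    (h : Aspherical (join F).rel) : Aspherical F.rel := by
  obtain ⟨S, _, m, T, hT, hm⟩ := hSL
  obtain ⟨P, _, i, k, hi, _, hik⟩ := amalgam_t
    (FreeGroup.lift fun j : JJ F => val F.rel [(rp F j, true)]) (FreeGroup.lift T) hfree hT
  have h1 : ∀ j, i (val F.rel [(rp F j, true)]) = k (T j) := by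
    intro j
    have := hik (FreeGroup.of j)
    rwa [FreeGroup.lift_apply_of, FreeGroup.lift_apply_of] at this
  refine asph_of_join F i hi (k m) (fun j => ?_) h
  rw [h1, ← map_mul, ← map_mul, ← map_mul, ← map_mul, hm]

end

/-- the relator of an edge of a forest -/
theorem rel_eq (G : LOF) (e : G.E) : G.rel e = [(G.tail e, true), (G.label e, true),
    (G.head e, false), (G.label e, false)] := rfl

/-- the value of the relator of an edge -/
theorem four_eq_one (G : LOF) (e : G.E) :
    valF G.rel (FreeGroup.of (G.tail e)) * valF G.rel (FreeGroup.of (G.label e)) *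
      (valF G.rel (FreeGroup.of (G.head e)))⁻¹ * (valF G.rel (FreeGroup.of (G.label e)))⁻¹ = 1 := by
  have h2 := lift_valF' G.rel (FreeGroup.mk (G.rel e))
  rw [valF_rel, rel_eq, lift_word4] at h2
  exact h2

/-- a connected labelled oriented forest that is not aspherical gives a labelled oriented tree -/
theorem lot_of_connected (G : LOF) (hG : (gr G).Connected) (hna : ¬ Aspherical G.rel) :
    ∃ (n : ℕ) (Γ : LOT (Fin n)), ¬ LotAspherical Γ := by
  classical
  obtain ⟨n, ⟨σ⟩⟩ : ∃ n, Nonempty (G.V ≃ Fin n) := ⟨_, ⟨Fintype.equivFin G.V⟩⟩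
  have hG' := relab_connected G σ hG
  obtain ⟨Γ, ε, hrel⟩ : ∃ (Γ : LOT (Fin n)) (ε : G.E ≃ Γ.graph.edgeSet), ∀ e : G.E,
      Γ.rel (ε e) = [((σ (G.tail e)), true), (σ (G.label e), true), (σ (G.head e), false),
        (σ (G.label e), false)] := by
    refine ⟨toLOT (relab G σ) hG', edgeEquiv (relab G σ), fun e => ?_⟩
    show (relab G σ).rel ((edgeEquiv (relab G σ)).symm (edgeEquiv (relab G σ) e)) = _
    rw [Equiv.symm_apply_apply]
    rfl
  refine ⟨n, Γ, fun hL => hna ?_⟩
  let _ : Fintype Γ.graph.edgeSet := Fintype.ofEquiv _ ε
  have hA : Aspherical Γ.rel := hL inferInstance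
  obtain ⟨φ, hφ⟩ := exists_map G.rel (G := Grp Γ.rel)
    (FreeGroup.lift fun x => valF Γ.rel (FreeGroup.of (σ x))) (by
      intro e
      have h2 := lift_valF' Γ.rel (FreeGroup.mk (Γ.rel (ε e)))
      rw [valF_rel, hrel, lift_word4] at h2
      rw [rel_eq, lift_word4]
      exact h2)
  obtain ⟨ψ, hψ⟩ := exists_map Γ.rel (G := Grp G.rel)
    (FreeGroup.lift fun y => valF G.rel (FreeGroup.of (σ.symm y))) (by
      intro e'
      obtain ⟨e, rfl⟩ := ε.surjective e'
      rw [hrel, lift_word4]
      simp only [Equiv.symm_apply_apply]
      exact four_eq_one G e)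
  have hinj : Function.Injective φ := by
    have h2 : ψ.comp φ = MonoidHom.id _ := by
      have h3 : (ψ.comp φ).comp (PresentedGroup.mk (Set.range fun i => FreeGroup.mk (G.rel i))) =
          (MonoidHom.id _).comp
            (PresentedGroup.mk (Set.range fun i => FreeGroup.mk (G.rel i))) := by
        refine FreeGroup.ext_hom _ _ fun x => ?_
        show ψ (φ (valF G.rel (FreeGroup.of x))) = valF G.rel (FreeGroup.of x)
        rw [hφ, FreeGroup.lift_apply_of, hψ, FreeGroup.lift_apply_of, Equiv.symm_apply_apply]
      refine MonoidHom.ext fun g => ?_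
      obtain ⟨w, rfl⟩ := QuotientGroup.mk_surjective g
      exact DFunLike.congr_fun h3 w
    intro a b hab
    have h3 := DFunLike.congr_fun h2 a
    have h4 := DFunLike.congr_fun h2 b
    rw [MonoidHom.comp_apply, hab] at h3
    rw [MonoidHom.comp_apply] at h4
    rw [h3] at h4
    exact h4
  refine asph_of_inj G.rel Γ.rel φ hinj (fun x => FreeGroup.of (σ x))
    (fun x => ?_) (fun e => ε e) ε.injective (fun e => ?_) hA
  · rw [← of_val, hφ, FreeGroup.lift_apply_of]
  · rw [hrel]
    rfl

end Pool.Agent.OC
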